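import Pool.Agent.TH715.WQ.Bun
import Pool.Agent.TH971.WQ.PBL
import Pool.Agent.TH558.WQ.Tbl
import Pool.Agent.TH90.WQ.Ppr
import Pool.Agent.TH153.WQ.PCut
import Pool.Agent.W558.WD.All

/-!
# The chain of constructions, relative version
(helpers 715, 971, 558, 90, 153)
-/

set_option autoImplicit false

universe u

open Pool.Agent.W558

namespace Pool.Agent.TH188.WQ

theorem wq_bun : WQ_bun.{u} := Pool.Agent.TH715.WQ.main wd_norm

theorem wq_pbl : WQ_pbl.{u} := Pool.Agent.TH971.WQ.PBL.main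

theorem wq_tbl : WQ_tbl.{u} := Pool.Agent.TH558.WQ.main

theorem wq_ppr : WQ_ppr.{u} := Pool.Agent.TH90.WQ.Ppr.main wd_cp wq_pbl wq_tbl

theorem wq_pcut : WQ_pcut.{u} := Pool.Agent.TH153.WQ.PCut.main

end Pool.Agent.TH188.WQ
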