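import Pool.Agent.TH188.WQ.Tower

/-!
# The normal form of linear combinations
-/

set_option autoImplicit false
set_option linter.unusedVariables false
set_option linter.unusedSectionVars false

universe u w

open Polynomial Pool.Agent.W558 Pool.Agent.TH188.WP

namespace Pool.Agent.TH188.WQ

section mon

variable {k L K : Type u} [Field k] [Field L] [Field K] [Algebra k L] [Algebra k K] [Algebra L K]
  [IsScalarTower k L K] {T0 I0 T I : Type} [Fintype I0] [Fintype I]
  {M0 : LM (⊥ : Subalgebra k L) ⊤ T0 I0} {M : LM (⊥ : Subalgebra k K) ⊤ T I} {π : T → T0}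
  {Θ : I → I0 → ℤ}

/-- The monomials. -/
lemma mo_pull (ho : Ovr M0 M π Θ) (t : T) (m : I0 → ℤ) :
    algebraMap L K (mo (M0.x (π t)) m) = mo (M.x t) (fun i => ∑ i0, Θ i i0 * m i0) := by
  unfold mo
  have h1 : ∀ i0, algebraMap L K (M0.x (π t) i0 ^ m i0) =
      ∏ i, M.x t i ^ (Θ i i0 * m i0) := by
    intro i0
    rw [map_zpow₀, ho.x, ← Finset.prod_zpow]
    exact Finset.prod_congr rfl fun i _ => by rw [zpow_mul]
  rw [map_prod, Finset.prod_congr rfl fun i _ => h1 i, Finset.prod_comm]
  refine Finset.prod_congr rfl fun i _ => ?_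
  rw [Pool.Agent.W349.WD.Sum.zpow_sum' (M.x0 t i)]

end mon

section ow

variable {k K : Type u} [Field k] [Field K] [Algebra k K] {A : Subalgebra k K} {κ : Type u}
  [Field κ] [Algebra k κ] {φ : A →ₐ[k] κ} {I : Type} [Fintype I] {x : I → K}

lemma ow_sum (v : LT φ x) (n : I → ℤ) {J : Type} (S : Finset J) (a : J → A) :
    ow v n (∑ j ∈ S, a j) = ∑ j ∈ S, ow v n (a j) := by
  classical
  induction S using Finset.induction_on with
  | empty => rw [Finset.sum_empty, Finset.sum_empty, ow_zero]
  | insert a' s ha ih => rw [Finset.sum_insert ha, Finset.sum_insert ha, ow_add, ih]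

lemma ow_smul (v : LT φ x) (n : I → ℤ) (r : k) (a : A) :
    ow v n (algebraMap k A r * a) = algebraMap k κ r * ow v n a := by
  unfold ow
  rw [v.D.leib, v.D.D_algebraMap, AlgHom.commutes, map_mul, AlgHom.commutes]
  ring

end ow

section add

variable {k L : Type u} [Field k] [Field L] [Algebra k L] {T0 I0 : Type} [Fintype I0] {ι : Type}
  [Fintype ι] {M0 : LM (⊥ : Subalgebra k L) ⊤ T0 I0} {n : ι → I0 → ℤ} {h : T0 → ι → L}

/-- The constant functions. -/
lemma exists_root_k (p : ℕ) [Fact p.Prime] [PerfectField k] [CharP k p] (c : k) :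
    ∃ r : k, r ^ p = c := by
  have := PerfectField.toPerfectRing (K := k) p
  obtain ⟨r, hr⟩ := surjective_frobenius k p c
  exact ⟨r, hr⟩

theorem hnf_add (p : ℕ) [Fact p.Prime] [PerfectField k] [CharP k p]
    (hB : BD M0 n n h (fun _ _ => 1)) (f : ι → L) (a : T0 → ι → L)
    (heq : ∀ t j, f j = a t j ^ p + (∏ i, M0.x t i ^ n j i) * h t j) :
    HNF (RingHom.id k) p hB (fun lam => ∑ j, algebraMap k L (lam j) * f j) := by
  classical
  have hp : p.Prime := Fact.out
  intro K _ _ _ _ T I _ _ M π Θ ho hR Λ hroot lam hlam μ j0 e' hN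
  have hcK : CharP K p := charP_of_injective_algebraMap (algebraMap k K).injective p
  have hcL : CharP L p := charP_of_injective_algebraMap (algebraMap k L).injective p
  choose w hw using fun t0 => hroot (μ t0) (hN.mem t0)
  choose r hr using fun c : k => exists_root_k p c
  -- the monomials
  have hmem : ∀ t0 l, (lam - μ t0) l ≠ 0 → ∀ i, 0 ≤ (n l - e') i ∨
      (M0.x t0 i)⁻¹ ∈ M0.A t0 := by
    intro t0 l hl i
    rcases hN.eq t0 i with h1 | h1
    · rcases hN.le t0 l hl i with h2 | h2
      · left; rw [Pi.sub_apply]; omega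
      · exact Or.inr h2
    · exact Or.inr h1
  let m : ∀ t0, ι → M0.A t0 := fun t0 l => if hl : (lam - μ t0) l ≠ 0 then
    ⟨mo (M0.x t0) (n l - e'), mon_mem (M0.xA t0) _ (hmem t0 l hl)⟩ else 0
  have hm : ∀ t0 l (hl : (lam - μ t0) l ≠ 0), m t0 l =
      ⟨mo (M0.x t0) (n l - e'), mon_mem (M0.xA t0) _ (hmem t0 l hl)⟩ := fun t0 l hl => dif_pos hl
  let H : ∀ t0, ι → M0.A t0 := fun t0 l => ⟨h t0 l, hB.hA t0 l⟩
  let g : ∀ t0, M0.A t0 := fun t0 =>
    ∑ l, algebraMap k (M0.A t0) ((lam - μ t0) l) * (m t0 l * H t0 l)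
  have hg : ∀ t0, (g t0 : L) = ∑ l, algebraMap k L ((lam - μ t0) l) * ((m t0 l : L) * h t0 l) := by
    intro t0
    change (M0.A t0).val (g t0) = _
    rw [map_sum]
    rfl
  have hgeq : ∀ t0, ∑ j, algebraMap k L ((lam - μ t0) j) * f j =
      (∑ j, algebraMap k L (r ((lam - μ t0) j)) * a t0 j) ^ p + mo (M0.x t0) e' * (g t0 : L) := by
    intro t0
    rw [hg, Finset.mul_sum, sum_pow_char, ← Finset.sum_add_distrib]
    refine Finset.sum_congr rfl fun j _ => ?_
    rw [mul_pow, ← map_pow, hr]
    by_cases hj : (lam - μ t0) j = 0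
    · rw [hj, map_zero]; ring
    · rw [hm t0 j hj]
      change _ = _ + mo (M0.x t0) e' * (_ * (mo (M0.x t0) (n j - e') * h t0 j))
      have h1 : mo (M0.x t0) e' * mo (M0.x t0) (n j - e') = mo (M0.x t0) (n j) := by
        rw [← mo_add (M0.x0 t0)]
        congr 1
        abel
      have h2 := heq t0 j
      change f j = a t0 j ^ p + mo (M0.x t0) (n j) * h t0 j at h2
      rw [h2, ← h1]
      ring
  refine ⟨fun i => ∑ i0, Θ i i0 * e' i0, fun t => w (π t) + algebraMap L K
    (∑ j, algebraMap k L (r ((lam - μ (π t)) j)) * a (π t) j),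
    fun t => algebraMap L K (g (π t)), fun t => ho.le t _ (g (π t)).2, ?_, ?_⟩
  · intro t
    change _ = _ + mo (M.x t) _ * _
    rw [← mo_pull ho, add_pow_char, hw, ← map_pow, ← map_mul, ← map_add, ← map_add, add_assoc,
      ← hgeq, ← Finset.sum_add_distrib]
    congr 1
    refine Finset.sum_congr rfl fun j _ => ?_
    rw [← add_mul, ← map_add, Pi.sub_apply, add_sub_cancel]
  · intro t κ _ _ φ
    have hunit : mo (M0.x (π t)) (n (j0 (π t)) - e') ∈ M0.A (π t) :=
      mon_mem (M0.xA _) _ (hmem (π t) _ (hN.ne _))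
    have hunit' : mo (M0.x (π t)) (e' - n (j0 (π t))) ∈ M0.A (π t) := by
      refine mon_mem (M0.xA _) _ fun i => ?_
      rcases hN.eq (π t) i with h1 | h1
      · left; rw [Pi.sub_apply]; omega
      · exact Or.inr h1
    refine ⟨φ ⟨_, ho.le t _ hunit⟩, ?_, ?_⟩
    · intro h0
      have h1 : φ ⟨_, ho.le t _ hunit⟩ * φ ⟨_, ho.le t _ hunit'⟩ = 1 := by
        rw [← map_mul, ← map_one φ]
        congr 1
        apply Subtype.ext
        change algebraMap L K _ * algebraMap L K _ = 1
        rw [← map_mul, ← mo_add (M0.x0 _)]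
        have h2 : n (j0 (π t)) - e' + (e' - n (j0 (π t))) = 0 := by abel
        rw [h2, mo_zero, map_one]
      rw [h0, zero_mul] at h1
      exact zero_ne_one h1
    · intro ψ v0 v hc
      rw [hc.om e' (g (π t)).2 (ho.le t _ (g (π t)).2), hc.vv _ hunit (ho.le t _ hunit)]
      change ow v0 e' (g (π t)) = _
      unfold pf
      rw [ow_sum, Finset.mul_sum]
      refine Finset.sum_congr rfl fun l _ => ?_
      rw [ow_smul]
      by_cases hl : (lam - μ (π t)) l = 0
      · rw [hl, map_zero]
        simp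
      · have hmon : LM' v0 (n l - e') (m (π t) l) := by
          rw [hm _ l hl]
          exact mon_log v0 (M0.xA _) (M0.x0 _) _ (hmem _ l hl)
        have e1 : e' + (n l - e') = n l := by abel
        rw [ow_mon v0 hmon, e1]
        have e2 : ψ (m (π t) l) = ψ ⟨_, hunit⟩ *
            EE n ψ (M0.x (π t)) (j0 (π t)) l := by
          have h3 : mo (M0.x (π t)) (n l - n (j0 (π t))) ∈ M0.A (π t) :=
            mo_mem (M0.xA _) (hN.le _ l hl)
          unfold EE
          rw [ev_eq ψ h3, ← map_mul]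
          congr 1
          apply Subtype.ext
          rw [hm _ l hl]
          change mo (M0.x (π t)) (n l - e') = mo (M0.x (π t)) (n (j0 (π t)) - e') *
            mo (M0.x (π t)) (n l - n (j0 (π t)))
          rw [← mo_add (M0.x0 _)]
          congr 1
          abel
        have e3 : hB.W v0 l = ow v0 (n l) (H (π t) l) := by
          unfold BD.W
          have h3 : ψ ⟨1, hB.sA (π t) l⟩ = 1 := map_one ψ
          rw [h3, one_mul]
          rfl
        rw [e2, e3]
        change algebraMap k κ _ * _ = _ * (algebraMap k κ _ * _ * _)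
        ring

theorem hpow_add (p : ℕ) [Fact p.Prime] [PerfectField k] [CharP k p] (f : ι → L) :
    HPow p k (fun lam : ι → k => ∑ j, algebraMap k L (lam j) * f j) := by
  have hp : p.Prime := Fact.out
  intro K _ _ _ _ μ ν a hμ hν
  have hcK : CharP K p := charP_of_injective_algebraMap (algebraMap k K).injective p
  obtain ⟨w, hw⟩ := hμ
  obtain ⟨w', hw'⟩ := hν
  obtain ⟨r, hr⟩ := exists_root_k p a
  refine ⟨w + algebraMap k K r * w', ?_⟩
  rw [add_pow_char, mul_pow, hw, hw', ← map_pow, hr, IsScalarTower.algebraMap_apply k L K,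
    ← map_mul, ← map_add]
  congr 1
  rw [Finset.mul_sum, ← Finset.sum_add_distrib]
  refine Finset.sum_congr rfl fun j _ => ?_
  rw [Pi.add_apply, Pi.smul_apply, smul_eq_mul, map_add, map_mul]
  ring

end add

end Pool.Agent.TH188.WQ
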