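import Pool.Agent.W558.WD.Stms

/-!
# Relative version of the construction of models of purely inseparable covers
Definitions and statements: as in `Pool.Agent.W558.WD.Stms`, but with the property that logarithmic
tangent vectors of the model of the base field can be lifted.
-/

set_option autoImplicit false
set_option linter.unusedVariables false
set_option linter.unusedSectionVars false

universe u

open Polynomial Pool.Agent.W558

namespace Pool.Agent.TH188.WQ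

section rel

variable {k L N : Type u} [Field k] [Field L] [Field N] [Algebra k L] [Algebra k N] [Algebra L N]
  [IsScalarTower k L N]

/-- The inclusion of a subalgebra of `L` into a subalgebra of `N`. -/
def ci {A : Subalgebra k L} {A' : Subalgebra k N} (h : ∀ a ∈ A, algebraMap L N a ∈ A') :
    A →ₐ[k] A' :=
  ((IsScalarTower.toAlgHom k L N).comp A.val).codRestrict A' fun a => h a a.2

variable {T0 T I0 I : Type}

/-- The model `M` of `N` lies over the model `B` of `L`; the local equations of the boundary of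
`B` are monomials in those of `M`. -/
structure Ovr [Fintype I0] [Fintype I] (B : LM (⊥ : Subalgebra k L) ⊤ T0 I0)
    (M : LM (⊥ : Subalgebra k N) ⊤ T I) (π : T → T0) (Θ : I → I0 → ℤ) : Prop where
  le : ∀ t, ∀ a ∈ B.A (π t), algebraMap L N a ∈ M.A t
  x : ∀ t i0, algebraMap L N (B.x (π t) i0) = ∏ i, M.x t i ^ Θ i i0
  Θ0 : ∀ i i0, 0 ≤ Θ i i0

/-- Logarithmic tangent vectors of `B` can be lifted to `M` if the logarithmic form
`d (x ^ n * h) / x ^ n` vanishes on them. -/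
def CLift [Fintype I0] [Fintype I] {B : LM (⊥ : Subalgebra k L) ⊤ T0 I0}
    {M : LM (⊥ : Subalgebra k N) ⊤ T I} {π : T → T0} {Θ : I → I0 → ℤ} (ho : Ovr B M π Θ)
    (n : I0 → ℤ) (h : T0 → L) (hA : ∀ t0, h t0 ∈ B.A t0) : Prop :=
  ∀ t (κ : Type u) [Field κ] [Algebra k κ] (φ : M.A t →ₐ[k] κ)
    (v0 : LT (φ.comp (ci (ho.le t))) (B.x (π t))), om v0 n (hA (π t)) = 0 →
    ∃ v : LT φ (M.x t),
      (∀ a (ha : a ∈ B.A (π t)), v.D.D ⟨algebraMap L N a, ho.le t a ha⟩ = v0.D.D ⟨a, ha⟩) ∧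
      ∀ i0, ∑ i, (Θ i i0 : κ) * v.e i = v0.e i0

/-- Logarithmic tangent vectors of `B` can be lifted to `M` with the additional divisors
`y t = 0`. -/
structure LfP [Fintype I0] [Fintype I] (B : LM (⊥ : Subalgebra k L) ⊤ T0 I0)
    (M : LM (⊥ : Subalgebra k N) ⊤ T I) (y : T → N) (π : T → T0) (Θ : I → I0 → ℤ) : Prop where
  ov : Ovr B M π Θ
  lf : ∀ t (κ : Type u) [Field κ] [Algebra k κ] (φ : M.A t →ₐ[k] κ)
    (v0 : LT (φ.comp (ci (ov.le t))) (B.x (π t))),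
    ∃ v : LT φ (ox (y t) (M.x t)),
      (∀ a (ha : a ∈ B.A (π t)), v.D.D ⟨algebraMap L N a, ov.le t a ha⟩ = v0.D.D ⟨a, ha⟩) ∧
      ∀ i0, ∑ i, (Θ i i0 : κ) * v.e (some i) = v0.e i0

end rel

section ovp

variable {k N : Type u} [Field k] [Field N] [Algebra k N] {T T' I I' : Type}

/-- The model `M'` with the divisors `y' t = 0` is a logarithmic modification of the model `M`
with the divisors `y t = 0`. -/
structure OvP [Fintype I] [Fintype I'] (M : LM (⊥ : Subalgebra k N) ⊤ T I) (y : T → N)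
    (M' : LM (⊥ : Subalgebra k N) ⊤ T' I') (y' : T' → N) (π : T' → T) (Θ : I' → I → ℤ) :
    Prop where
  le : ∀ t', M.A (π t') ≤ M'.A t'
  x : ∀ t' i, M.x (π t') i = ∏ i', M'.x t' i' ^ Θ i' i
  Θ0 : ∀ i' i, 0 ≤ Θ i' i
  lt : ∀ t' (κ : Type u) [Field κ] [Algebra k κ] (φ' : M'.A t' →ₐ[k] κ)
    (v : LT (φ'.comp (Subalgebra.inclusion (le t'))) (ox (y (π t')) (M.x (π t')))),
    ∃ v' : LT φ' (ox (y' t') (M'.x t')),
      (∀ a (ha : a ∈ M.A (π t')), v'.D.D ⟨a, le t' ha⟩ = v.D.D ⟨a, ha⟩) ∧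
      ∀ i, ∑ i', (Θ i' i : κ) * v'.e (some i') = v.e (some i)

end ovp

/-- BUN: the projective line bundle with the local coordinates `(Z - a t) / x ^ m`. -/
def WQ_bun : Prop := ∀ (p : ℕ) [Fact p.Prime] (k L N : Type u) [Field k] [CharP k p] [Field L]
  [Field N] [Algebra k L] [Algebra k N] [Algebra L N] [IsScalarTower k L N] (T I G : Type)
  [Finite T] [Fintype I] (B : LM (⊥ : Subalgebra k L) ⊤ T I) (f : L) (n : I → ℤ) (a h : T → L)
  (g : G → L) (Γ : G → I → ℤ),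
  NFH p B f n a h → Frc B → Fn B g Γ → (∀ b : L, b ^ p ≠ f) →
  ∀ Z : N, Transcendental L Z → (∀ x : N, ∃ P P' : L[X], P' ≠ 0 ∧ x * aeval Z P' = aeval Z P) →
  ∀ Q : Subalgebra k N, IsQ p Z f Q →
  ∃ (T' I' : Type) (_ : Finite T') (_ : Fintype I') (M' : LM (⊥ : Subalgebra k N) ⊤ T' I')
    (y : T' → N) (c μ : I' → ℤ) (Γ' : G → I' → ℤ) (π : T' → T) (Θ : I' → I → ℤ),
    PS p M' (Z ^ p - algebraMap L N f) Q y (fun t => algebraMap L N (h (π t))) c μ ∧ Lq M' Q ∧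
    Fn M' (fun b => algebraMap L N (g b)) Γ' ∧ LfP B M' y π Θ ∧
    ∀ i', c i' + p * μ i' = ∑ i, Θ i' i * n i

/-- PBL: the blowup of the intersection of the component `i` of the boundary and of the divisors
`y t = 0`. -/
def WQ_pbl : Prop := ∀ (p : ℕ) [Fact p.Prime] (k N : Type u) [Field k] [CharP k p] [Field N]
  [Algebra k N] (T I G : Type) [Finite T] [Fintype I] [DecidableEq I]
  (M : LM (⊥ : Subalgebra k N) ⊤ T I) (F : N) (Q : Subalgebra k N) (y h : T → N) (c μ : I → ℤ)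
  (g : G → N) (Γ : G → I → ℤ), PS p M F Q y h c μ → Lq M Q → Fn M g Γ → ∀ i, 0 < c i →
  (∀ t t', ∃ n : ℕ, ∃ α ∈ M.A t, ∃ β ∈ M.A t,
    (M.H t' / M.H t) ^ n * y t' = α * y t + β * M.x t i) →
  ∃ (M' : LM (⊥ : Subalgebra k N) ⊤ (T × Bool) (Option I)) (y' : T × Bool → N)
    (μ' : Option I → ℤ) (Γ' : G → Option I → ℤ) (Θ : Option I → I → ℤ),
    PS p M' F Q y' (fun q => h q.1) (fun o => o.elim (c i - p) c) μ' ∧ Lq M' Q ∧ Fn M' g Γ' ∧
    SepY M' y' (some i) ∧ (∀ l l', Sep M l l' → Sep M' (some l) (some l')) ∧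
    (∀ l, SepY M y l → SepY M' y' (some l)) ∧ (∀ l, Sep M i l → Sep M' none (some l)) ∧
    (∀ l, SepY M y l → Sep M' none (some l)) ∧ OvP M y M' y' Prod.fst Θ ∧
    ∀ o : Option I, (o.elim (c i - p) c : ℤ) + p * μ' o = ∑ l, Θ o l * (c l + p * μ l)

/-- TBL: the blowup of the intersection of two components of the boundary. -/
def WQ_tbl : Prop := ∀ (p : ℕ) [Fact p.Prime] (k N : Type u) [Field k] [CharP k p] [Field N]
  [Algebra k N] (T I G : Type) [Finite T] [Fintype I] [DecidableEq I]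
  (M : LM (⊥ : Subalgebra k N) ⊤ T I) (F : N) (Q : Subalgebra k N) (y h : T → N) (c μ : I → ℤ)
  (g : G → N) (Γ : G → I → ℤ), PS p M F Q y h c μ → Lq M Q → Fn M g Γ → ∀ i j, i ≠ j →
  ∃ (M' : LM (⊥ : Subalgebra k N) ⊤ (T × Bool) (Option I)) (y' : T × Bool → N)
    (μ' : Option I → ℤ) (Γ' : G → Option I → ℤ) (Θ : Option I → I → ℤ),
    PS p M' F Q y' (fun q => h q.1) (fun o => o.elim (c i + c j) c) μ' ∧ Lq M' Q ∧ Fn M' g Γ' ∧
    Sep M' (some i) (some j) ∧ (∀ l l', Sep M l l' → Sep M' (some l) (some l')) ∧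
    (∀ l, Sep M i l → Sep M' none (some l)) ∧ (∀ l, Sep M j l → Sep M' none (some l)) ∧
    (∀ l, SepY M y l → SepY M' y' (some l)) ∧ (SepY M y i → SepY M' y' none) ∧
    OvP M y M' y' Prod.fst Θ ∧
    ∀ o : Option I, (o.elim (c i + c j) c : ℤ) + p * μ' o = ∑ l, Θ o l * (c l + p * μ l)

/-- PPR: principalization. -/
def WQ_ppr : Prop := ∀ (p : ℕ) [Fact p.Prime] (k N : Type u) [Field k] [PerfectField k]
  [CharP k p] [Field N] [Algebra k N] (T I G : Type) [Finite T] [Fintype I]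
  (M : LM (⊥ : Subalgebra k N) ⊤ T I) (F : N) (Q : Subalgebra k N) (y h : T → N) (c μ : I → ℤ)
  (g : G → N) (Γ : G → I → ℤ), PS p M F Q y h c μ → Lq M Q → Fn M g Γ →
  ∃ (T' I' : Type) (_ : Finite T') (_ : Fintype I') (M' : LM (⊥ : Subalgebra k N) ⊤ T' I')
    (y' : T' → N) (c' μ' : I' → ℤ) (Γ' : G → I' → ℤ) (π : T' → T) (Θ : I' → I → ℤ),
    PS p M' F Q y' (fun t' => h (π t')) c' μ' ∧ Lq M' Q ∧ Fn M' g Γ' ∧ Fin2 M' y' c' ∧
    OvP M y M' y' π Θ ∧ ∀ i', c' i' + p * μ' i' = ∑ i, Θ i' i * (c i + p * μ i)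

/-- PCUT: restriction to the divisor of `F`. -/
def WQ_pcut : Prop := ∀ (p : ℕ) [Fact p.Prime] (k L N K : Type u) [Field k] [PerfectField k]
  [CharP k p] [Field L] [Field N] [Field K] [Algebra k L] [Algebra k N] [Algebra L N]
  [IsScalarTower k L N] [Algebra k K] [Algebra L K] [IsScalarTower k L K]
  (T0 I0 T I G : Type) [Fintype I0] [Finite T] [Fintype I]
  (B : LM (⊥ : Subalgebra k L) ⊤ T0 I0) (n0 : I0 → ℤ) (h0 : T0 → L)
  (hA0 : ∀ t0, h0 t0 ∈ B.A t0)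
  (M : LM (⊥ : Subalgebra k N) ⊤ T I) (F : N) (Q : Subalgebra k N) (y : T → N) (c μ : I → ℤ)
  (g : G → L) (Γ : G → I → ℤ) (π : T → T0) (Θ : I → I0 → ℤ),
  PS p M F Q y (fun t => algebraMap L N (h0 (π t))) c μ → Lq M Q →
  Fn M (fun b => algebraMap L N (g b)) Γ → Fin2 M y c → LfP B M y π Θ →
  (∀ i, c i + p * μ i = ∑ i0, Θ i i0 * n0 i0) →
  F ∈ Q → F ≠ 0 → ∀ ρ : Q →ₐ[k] K, (∀ q : Q, ρ q = 0 ↔ ∃ r ∈ Q, (q : N) = F * r) →
  Function.Surjective ρ → (∀ x : N, x ∈ Q ∨ x⁻¹ ∈ Q) →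
  (∀ (l : L) (hl : algebraMap L N l ∈ Q), ρ ⟨algebraMap L N l, hl⟩ = algebraMap L K l) →
  ∃ (T' I' : Type) (_ : Finite T') (_ : Fintype I') (M' : LM (⊥ : Subalgebra k K) ⊤ T' I')
    (π' : T' → T0) (Θ' : I' → I0 → ℤ) (ho : Ovr B M' π' Θ') (Γ' : G → I' → ℤ),
    CLift ho n0 h0 hA0 ∧ Fn M' (fun b => algebraMap L K (g b)) Γ' ∧ Frc M'

end Pool.Agent.TH188.WQ
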