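import Pool.Agent.W349.WD.Sum

/-!
# Linear algebra for the normal form of linear combinations in towers
-/

set_option autoImplicit false
set_option linter.unusedVariables false
set_option linter.unusedSectionVars false

universe u w

open Pool.Agent.W349.WD.Sum

namespace Pool.Agent.TH188.WQ

section lin

variable {C : Type w} [Field C] {ι : Type}

/-- `R` is a set of pivots of `Λ` with respect to the preorder `le`. -/
structure Ech (le : ι → ι → Prop) (Λ : Submodule C (ι → C)) (R : Finset ι) : Prop where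
  ech : ∀ μ ∈ Λ, μ ≠ 0 → ∃ j ∈ R, μ j ≠ 0 ∧ ∀ l, μ l ≠ 0 → le j l
  rep : ∀ lam : ι → C, ∃ μ ∈ Λ, ∀ j ∈ R, lam j = μ j

lemma Ech.step [DecidableEq ι] {le : ι → ι → Prop} (htot : ∀ a b, le a b ∨ le b a)
    (htr : ∀ a b c, le a b → le b c → le a c) {Λ : Submodule C (ι → C)} {R : Finset ι}
    (hE : Ech le Λ R) {lam lr : ι → C} (hmem : lam - lr ∈ Λ) (hzero : ∀ j ∈ R, lr j = 0) {j0 : ι}
    (hne : lr j0 ≠ 0) (hle : ∀ l, lr l ≠ 0 → le j0 l) :
    Ech le (Λ ⊔ Submodule.span C {lam}) (insert j0 R) := by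
  refine ⟨?_, ?_⟩
  · intro μ hμ hμ0
    obtain ⟨μ0, hμ0', μ1, hμ1, rfl⟩ := Submodule.mem_sup.mp hμ
    obtain ⟨c, rfl⟩ := Submodule.mem_span_singleton.mp hμ1
    set ν : ι → C := μ0 + c • (lam - lr) with hν
    have hνΛ : ν ∈ Λ := Λ.add_mem hμ0' (Λ.smul_mem c hmem)
    have hμν : ∀ l, (μ0 + c • lam) l = ν l + c * lr l := by
      intro l
      simp only [hν, Pi.add_apply, Pi.smul_apply, Pi.sub_apply, smul_eq_mul]
      ring
    by_cases hc : c = 0
    · have h1 : ∀ l, (μ0 + c • lam) l = ν l := fun l => by rw [hμν, hc, zero_mul, add_zero]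
      have h2 : ν ≠ 0 := by
        intro h3
        apply hμ0
        funext l
        rw [h1, h3]
      obtain ⟨j, hj, hj1, hj2⟩ := hE.ech ν hνΛ h2
      refine ⟨j, Finset.mem_insert_of_mem hj, by rw [h1]; exact hj1, fun l hl => hj2 l ?_⟩
      rw [← h1]; exact hl
    · by_cases hν0 : ν = 0
      · refine ⟨j0, Finset.mem_insert_self _ _, ?_, fun l hl => ?_⟩
        · rw [hμν, hν0, Pi.zero_apply, zero_add]
          exact mul_ne_zero hc hne
        · rw [hμν, hν0, Pi.zero_apply, zero_add] at hl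
          exact hle l (right_ne_zero_of_mul hl)
      · obtain ⟨j1, hj, hj1, hj2⟩ := hE.ech ν hνΛ hν0
        by_cases h10 : le j1 j0
        · refine ⟨j1, Finset.mem_insert_of_mem hj, ?_, fun l hl => ?_⟩
          · rw [hμν, hzero j1 hj, mul_zero, add_zero]; exact hj1
          · by_cases hνl : ν l = 0
            · rw [hμν, hνl, zero_add] at hl
              exact htr _ _ _ h10 (hle l (right_ne_zero_of_mul hl))
            · exact hj2 l hνl
        · have h01 : le j0 j1 := (htot j1 j0).resolve_left h10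
          have hν00 : ν j0 = 0 := by
            by_contra h4
            exact h10 (hj2 _ h4)
          refine ⟨j0, Finset.mem_insert_self _ _, ?_, fun l hl => ?_⟩
          · rw [hμν, hν00, zero_add]
            exact mul_ne_zero hc hne
          · by_cases hνl : ν l = 0
            · rw [hμν, hνl, zero_add] at hl
              exact hle l (right_ne_zero_of_mul hl)
            · exact htr _ _ _ h01 (hj2 l hνl)
  · intro lam'
    obtain ⟨ν, hν, hν1⟩ := hE.rep lam'
    set c : C := (lam' j0 - ν j0) / lr j0 with hc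
    refine ⟨(ν - c • (lam - lr)) + c • lam, Submodule.mem_sup.mpr
      ⟨_, Λ.sub_mem hν (Λ.smul_mem c hmem), _,
        Submodule.smul_mem _ c (Submodule.mem_span_singleton_self lam), rfl⟩, ?_⟩
    intro j hj
    have e1 : ((ν - c • (lam - lr)) + c • lam) j = ν j + c * lr j := by
      simp only [Pi.add_apply, Pi.smul_apply, Pi.sub_apply, smul_eq_mul]
      ring
    rw [e1]
    rcases Finset.mem_insert.mp hj with h1 | h1
    · rw [h1, hc, div_mul_cancel₀ _ hne]
      ring
    · rw [hzero j h1, mul_zero, add_zero]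
      exact hν1 j h1

lemma exists_min_supp [Finite ι] {le : ι → ι → Prop} (htot : ∀ a b, le a b ∨ le b a)
    (htr : ∀ a b c, le a b → le b c → le a c) {lr : ι → C} (h : lr ≠ 0) :
    ∃ j, lr j ≠ 0 ∧ ∀ l, lr l ≠ 0 → le j l := by
  classical
  have := Fintype.ofFinite {j // lr j ≠ 0}
  have hn : Nonempty {j // lr j ≠ 0} := by
    by_contra hcon
    apply h
    funext j
    by_contra hj
    exact hcon ⟨⟨j, hj⟩⟩
  obtain ⟨j, hj⟩ := exists_min (fun a b : {j // lr j ≠ 0} => le a.1 b.1)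
    (fun a b => htot _ _) (fun a b c => htr _ _ _)
  exact ⟨j.1, j.2, fun l hl => hj ⟨l, hl⟩⟩

theorem exists_ech [Finite ι] {le : ι → ι → Prop} (htot : ∀ a b, le a b ∨ le b a)
    (htr : ∀ a b c, le a b → le b c → le a c) (Λ : Submodule C (ι → C)) :
    ∃ R : Finset ι, Ech le Λ R := by
  classical
  obtain ⟨s, rfl⟩ : Λ.FG := IsNoetherian.noetherian Λ
  induction s using Finset.induction_on with
  | empty =>
    refine ⟨∅, ?_, fun lam => ⟨0, Submodule.zero_mem _, fun j hj => by simp at hj⟩⟩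
    intro μ hμ hμ0
    rw [Finset.coe_empty, Submodule.span_empty, Submodule.mem_bot] at hμ
    exact absurd hμ hμ0
  | insert lam s hs ih =>
    obtain ⟨R, hR⟩ := ih
    have h1 : Submodule.span C ((insert lam s : Finset (ι → C)) : Set (ι → C)) =
        Submodule.span C (s : Set (ι → C)) ⊔ Submodule.span C {lam} := by
      rw [Finset.coe_insert, Submodule.span_insert, sup_comm]
    rw [h1]
    by_cases hl : lam ∈ Submodule.span C (s : Set (ι → C))
    · refine ⟨R, ?_⟩
      rw [sup_eq_left.2 ((Submodule.span_singleton_le_iff_mem _ _).2 hl)]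
      exact hR
    · obtain ⟨μ, hμ, hμR⟩ := hR.rep lam
      have hlr : lam - μ ≠ 0 := fun h => hl (by rw [sub_eq_zero.1 h]; exact hμ)
      obtain ⟨j0, hj0, hj1⟩ := exists_min_supp htot htr hlr
      refine ⟨insert j0 R, hR.step htot htr (lr := lam - μ) ?_ ?_ hj0 hj1⟩
      · rw [sub_sub_cancel]; exact hμ
      · intro j hj
        rw [Pi.sub_apply, hμR j hj, sub_self]

variable [Fintype ι] {κ : Type u} [Field κ]

/-- The value of the form of the combination `lam`, divided by the monomial of `j`. -/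
def pf (c' : C →+* κ) (E : ι → ι → κ) (ξ : ι → κ) (lam : ι → C) (j : ι) : κ :=
  ∑ l, c' (lam l) * E j l * ξ l

/-- The forms of the combinations in `Λ` vanish. -/
def Kil (le : ι → ι → Prop) (c' : C →+* κ) (E : ι → ι → κ) (Λ : Submodule C (ι → C))
    (ξ : ι → κ) : Prop :=
  ∀ lam ∈ Λ, ∀ j, lam j ≠ 0 → (∀ l, lam l ≠ 0 → le j l) → pf c' E ξ lam j = 0

lemma Kil.mono {le : ι → ι → Prop} {c' : C →+* κ} {E : ι → ι → κ} {Λ Λ' : Submodule C (ι → C)}
    {ξ : ι → κ} (h : Kil le c' E Λ' ξ) (hΛ : Λ ≤ Λ') : Kil le c' E Λ ξ :=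
  fun lam hl => h lam (hΛ hl)

theorem exists_kil {le : ι → ι → Prop} {Λ : Submodule C (ι → C)} {R : Finset ι}
    (hE : Ech le Λ R) (c' : C →+* κ) (E : ι → ι → κ) (hE1 : ∀ j, E j j = 1)
    (hE2 : ∀ j r l, le j r → le r l → E j l = E j r * E r l) {lr : ι → C}
    (hlr : ∀ j ∈ R, lr j = 0) {j0 : ι} (hj0 : lr j0 ≠ 0) :
    ∃ ξ : ι → κ, Kil le c' E Λ ξ ∧ pf c' E ξ lr j0 ≠ 0 := by
  classical
  have hj0R : j0 ∉ R := fun h => hj0 (hlr _ h)
  choose μ hμ hμR using fun r : ι => hE.rep (Pi.single r 1)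
  have hμr : ∀ r ∈ R, ∀ l, μ r l ≠ 0 → le r l := by
    intro r hr l hl
    have h0 : μ r ≠ 0 := fun h => hl (by rw [h]; rfl)
    obtain ⟨j, hj, hj1, hj2⟩ := hE.ech (μ r) (hμ r) h0
    have h1 : j = r := by
      by_contra h
      apply hj1
      rw [← hμR r j hj, Pi.single_eq_of_ne h]
    rw [← h1]
    exact hj2 l hl
  have hsum : ∀ lam ∈ Λ, ∀ l, lam l = ∑ r ∈ R, lam r * μ r l := by
    intro lam hlam
    have h1 : lam - ∑ r ∈ R, lam r • μ r = 0 := by
      by_contra h2
      obtain ⟨j, hj, hj1, -⟩ := hE.ech _ (Λ.sub_mem hlam (Λ.sum_mem fun r _ =>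
        Λ.smul_mem _ (hμ r))) h2
      apply hj1
      rw [Pi.sub_apply, Finset.sum_apply, Finset.sum_eq_single j]
      · rw [Pi.smul_apply, ← hμR j j hj, Pi.single_eq_same, smul_eq_mul, mul_one, sub_self]
      · intro r _ hr
        rw [Pi.smul_apply, ← hμR r j hj, Pi.single_eq_of_ne hr.symm, smul_zero]
      · intro h3
        exact absurd hj h3
    intro l
    have h2 := congrFun (sub_eq_zero.1 h1) l
    rw [h2, Finset.sum_apply]
    rfl
  refine ⟨fun l => if l ∈ R then -(c' (μ l j0) * E l j0) else if l = j0 then 1 else 0, ?_, ?_⟩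
  · intro lam hlam j hj hjl
    unfold pf
    have h1 : ∀ l, c' (lam l) * E j l * (if l ∈ R then -(c' (μ l j0) * E l j0) else
        if l = j0 then 1 else 0) = (if l ∈ R then -(c' (lam l) * c' (μ l j0) * E j j0) else 0) +
        (if l = j0 then c' (lam j0) * E j j0 else 0) := by
      intro l
      by_cases hlR : l ∈ R
      · have hl0 : l ≠ j0 := fun h => hj0R (h ▸ hlR)
        rw [if_pos hlR, if_pos hlR, if_neg hl0, add_zero]
        by_cases h2 : lam l = 0
        · rw [h2, map_zero]; ring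
        · by_cases h3 : μ l j0 = 0
          · rw [h3, map_zero]; ring
          · rw [hE2 j l j0 (hjl l h2) (hμr l hlR _ h3)]
            ring
      · rw [if_neg hlR, if_neg hlR, zero_add]
        split_ifs with h2
        · rw [h2, mul_one]
        · rw [mul_zero]
    rw [Finset.sum_congr rfl fun l _ => h1 l, Finset.sum_add_distrib, Finset.sum_ite_eq',
      if_pos (Finset.mem_univ _), Finset.sum_ite_mem, Finset.univ_inter, hsum lam hlam j0, map_sum,
      Finset.sum_mul, ← Finset.sum_add_distrib]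
    refine Finset.sum_eq_zero fun l _ => ?_
    rw [map_mul]
    ring
  · unfold pf
    rw [Finset.sum_eq_single j0]
    · beta_reduce
      rw [if_neg hj0R, if_pos rfl, hE1, mul_one, mul_one]
      exact (map_ne_zero c').2 hj0
    · intro l _ hl
      by_cases hlR : l ∈ R
      · rw [hlr l hlR, map_zero]; ring
      · beta_reduce
        rw [if_neg hlR, if_neg hl, mul_zero]
    · intro h
      exact absurd (Finset.mem_univ _) h

/-- The normal form of the combination `lam` modulo `Λ`. -/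
structure Nrm {T I : Type} (U : T → I → Prop) (e : ι → I → ℤ) (Λ : Submodule C (ι → C))
    (lam : ι → C) (μ : T → ι → C) (j0 : T → ι) (e' : I → ℤ) : Prop where
  mem : ∀ t, μ t ∈ Λ
  ne : ∀ t, (lam - μ t) (j0 t) ≠ 0
  le : ∀ t l, (lam - μ t) l ≠ 0 → ∀ i, e (j0 t) i ≤ e l i ∨ U t i
  eq : ∀ t i, e' i = e (j0 t) i ∨ U t i
  kil : ∀ t (κ : Type u) [Field κ] (c' : C →+* κ) (E : ι → ι → κ), (∀ j, E j j = 1) →
    (∀ j r l, (∀ i, e j i ≤ e r i ∨ U t i) → (∀ i, e r i ≤ e l i ∨ U t i) →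
      E j l = E j r * E r l) →
    ∃ ξ : ι → κ, Kil (fun j l => ∀ i, e j i ≤ e l i ∨ U t i) c' E Λ ξ ∧
      pf c' E ξ (lam - μ t) (j0 t) ≠ 0

theorem exists_nrm {T I : Type} (U : T → I → Prop) (e : ι → I → ℤ)
    (hcmp : ∀ t j l, (∀ i, e j i ≤ e l i ∨ U t i) ∨ (∀ i, e l i ≤ e j i ∨ U t i))
    (Λ : Submodule C (ι → C)) (lam : ι → C) (hlam : lam ∉ Λ) :
    ∃ (μ : T → ι → C) (j0 : T → ι) (e' : I → ℤ), Nrm.{u} U e Λ lam μ j0 e' := by
  classical
  have htr : ∀ t (a b c : ι), (∀ i, e a i ≤ e b i ∨ U t i) → (∀ i, e b i ≤ e c i ∨ U t i) →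
      ∀ i, e a i ≤ e c i ∨ U t i := by
    intro t a b c h1 h2 i
    rcases h1 i with h3 | h3
    · rcases h2 i with h4 | h4
      · exact Or.inl (h3.trans h4)
      · exact Or.inr h4
    · exact Or.inr h3
  choose R hR using fun t => exists_ech (hcmp t) (htr t) Λ
  choose μ hμΛ hμR using fun t => (hR t).rep lam
  have hlr0 : ∀ t, lam - μ t ≠ 0 := by
    intro t h
    apply hlam
    rw [sub_eq_zero.1 h]
    exact hμΛ t
  choose j0 hj0 hle using fun t => exists_min_supp (hcmp t) (htr t) (hlr0 t)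
  have hR0 : ∀ t, ∀ j ∈ R t, (lam - μ t) j = 0 := fun t j hj => by
    rw [Pi.sub_apply, hμR t j hj, sub_self]
  have key : ∀ t t' i, ¬ U t i → ¬ U t' i → e (j0 t') i ≤ e (j0 t) i := by
    intro t t' i ht ht'
    have h1 : ∀ l, (lam - μ t') l = (lam - μ t) l + (μ t - μ t') l := by
      intro l
      simp only [Pi.sub_apply]
      ring
    have h2 : ∀ l, (lam - μ t') l ≠ 0 → e (j0 t') i ≤ e l i := fun l hl =>
      (hle t' l hl i).resolve_right ht'
    by_cases hν : μ t - μ t' = 0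
    · apply h2
      rw [h1, hν, Pi.zero_apply, add_zero]
      exact hj0 t
    · obtain ⟨j, hjR, hj1, hj2⟩ := (hR t).ech (μ t - μ t') (Λ.sub_mem (hμΛ t) (hμΛ t')) hν
      have h3 : (lam - μ t') j ≠ 0 := by
        rw [h1, hR0 t j hjR, zero_add]
        exact hj1
      by_cases h4 : (μ t - μ t') (j0 t) = 0
      · apply h2
        rw [h1, h4, add_zero]
        exact hj0 t
      · exact (h2 j h3).trans ((hj2 _ h4 i).resolve_right ht)
  let e' : I → ℤ := fun i => if H : ∃ t, ¬ U t i then e (j0 H.choose) i else 0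
  have he' : ∀ t i, e' i = e (j0 t) i ∨ U t i := by
    intro t i
    by_cases ht : U t i
    · exact Or.inr ht
    · left
      have H : ∃ t, ¬ U t i := ⟨t, ht⟩
      have h1 : e' i = e (j0 H.choose) i := dif_pos H
      rw [h1]
      exact le_antisymm (key _ _ _ ht H.choose_spec) (key _ _ _ H.choose_spec ht)
  exact ⟨μ, j0, e', hμΛ, hj0, hle, he', fun t κ _ c' E hE1 hE2 =>
    exists_kil (hR t) c' E hE1 hE2 (hR0 t) (hj0 t)⟩

end lin

end Pool.Agent.TH188.WQ
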