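import Pool.Agent.TH188.WQ.Add
import Pool.Agent.TH188.WP.Nfj

/-!
# The normal form of products of powers
-/

set_option autoImplicit false
set_option linter.unusedVariables false
set_option linter.unusedSectionVars false

universe u w

open Polynomial Pool.Agent.W558 Pool.Agent.TH188.WP

namespace Pool.Agent.TH188.WQ

section chart

variable {k K : Type u} [Field k] [Field K] [Algebra k K] {A : Subalgebra k K} {I : Type}
  [Fintype I] {x : I → K}

/-- The normal form of a product (`Pool.Agent.TH188.WP.exists_g` with weaker hypotheses). -/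
theorem exists_g' (p : ℕ) [Fact p.Prime] [CharP k p] [Algebra.Smooth k A]
    (hR : ∀ z : K, z ^ p ∈ A → z ∈ A) (hS : SNC A x) (hx : ∀ i, x i ∈ A) (hx0 : ∀ i, x i ≠ 0)
    {ι : Type} (V E : ι → I → ℤ) (u h m c : ι → A) (a : ι → K)
    (hu : ∀ i, (u i : K)⁻¹ ∈ A) (hu0 : ∀ i, (u i : K) ≠ 0)
    (hE : ∀ i l, 0 ≤ E i l ∨ (x l)⁻¹ ∈ A)
    (hc : ∀ i, (c i : K) = u i - mo x (E i) * h i) (hca : ∀ i, mo x (V i) * c i = a i ^ p)
    (E0 : I → ℤ) (S : Finset ι) :
    (∀ i ∈ S, (m i : K) = mo x (E i - E0) ∧ ∀ l, 0 ≤ (E i - E0) l ∨ (x l)⁻¹ ∈ A) →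
    ∃ g : A, mo x E0 * (g : K) = ((∏ i ∈ S, u i - ∏ i ∈ S, c i : A) : K) ∧
      ∀ (κ : Type u) [Field κ] [Algebra k κ] (φ : A →ₐ[k] κ) (v : LT φ x),
        ow v ((∑ i ∈ S, V i) + E0) g =
          φ (∏ i ∈ S, u i) * ∑ i ∈ S, φ (m i) * ow v (V i + E i) (h i) / φ (u i) := by
  classical
  have hφu : ∀ (κ : Type u) [Field κ] [Algebra k κ] (φ : A →ₐ[k] κ) i, φ (u i) ≠ 0 := by
    intro κ _ _ φ i h0
    have h1 : φ (u i) * φ ⟨_, hu i⟩ = 1 := by
      rw [← map_mul, ← map_one φ]
      congr 1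
      exact Subtype.ext (mul_inv_cancel₀ (hu0 i))
    rw [h0, zero_mul] at h1
    exact zero_ne_one h1
  induction S using Finset.induction_on with
  | empty =>
    intro _
    refine ⟨0, by simp, ?_⟩
    intro κ _ _ φ v
    rw [ow_zero, Finset.sum_empty, mul_zero]
  | insert i0 S hi0 ih =>
    intro hm
    obtain ⟨g, hg1, hg2⟩ := ih fun i hi => hm i (Finset.mem_insert_of_mem hi)
    obtain ⟨hm1, hm2⟩ := hm i0 (Finset.mem_insert_self _ _)
    let C : A := ∏ i ∈ S, c i
    let U : A := ∏ i ∈ S, u i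
    have hg1' : mo x E0 * (g : K) = (U : K) - (C : K) := hg1
    have hxm : mo x E0 * (m i0 : K) = mo x (E i0) := by
      rw [hm1, ← mo_add hx0]; congr 1; abel
    refine ⟨u i0 * g + m i0 * (h i0 * C), ?_, ?_⟩
    · rw [Finset.prod_insert hi0, Finset.prod_insert hi0]
      change mo x E0 * ((u i0 : K) * g + m i0 * (h i0 * C)) = (u i0 : K) * U - c i0 * C
      have h1 := hc i0
      rw [h1]
      linear_combination (u i0 : K) * hg1' + ((h i0 : K) * C) * hxm
    · intro κ _ _ φ v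
      have hmE : LM' v (E i0) (⟨mo x (E i0), mon_mem hx _ (hE i0)⟩ : A) :=
        mon_log v hx hx0 _ (hE i0)
      have hmm : LM' v (E i0 - E0) (m i0) := by
        have h2 : m i0 = ⟨mo x (E i0 - E0), mon_mem hx _ hm2⟩ := Subtype.ext hm1
        rw [h2]
        exact mon_log v hx hx0 _ hm2
      -- the form of `u`
      have hou : ow v (V i0) (u i0) =
          φ ⟨mo x (E i0), mon_mem hx _ (hE i0)⟩ * ow v (V i0 + E i0) (h i0) := by
        have h1 : u i0 = c i0 + ⟨mo x (E i0), mon_mem hx _ (hE i0)⟩ * h i0 := by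
          apply Subtype.ext
          change (u i0 : K) = c i0 + mo x (E i0) * h i0
          rw [hc]; ring
        have h2 : ow v (V i0) (c i0) = 0 := ow_root p hR hS hx hx0 v (V i0) (c i0) (a i0) (hca i0)
        rw [h1, ow_add, h2, zero_add, ow_mon v hmE]
      have hoC : ow v (∑ i ∈ S, V i) C = 0 := by
        refine ow_root p hR hS hx hx0 v _ C (∏ i ∈ S, a i) ?_
        have h1 : (C : K) = ∏ i ∈ S, (c i : K) := by
          change A.val (∏ i ∈ S, c i) = _
          rw [map_prod]; rfl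
        change mo x (∑ i ∈ S, V i) * (C : K) = _
        rw [mo_sum hx0, h1, ← Finset.prod_mul_distrib, ← Finset.prod_pow]
        exact Finset.prod_congr rfl fun i _ => hca i
      have e1 : (∑ i ∈ insert i0 S, V i) + E0 = V i0 + ((∑ i ∈ S, V i) + E0) := by
        rw [Finset.sum_insert hi0]; abel
      have e2 : ((∑ i ∈ insert i0 S, V i) + E0) + (E i0 - E0) =
          (V i0 + E i0) + ∑ i ∈ S, V i := by
        rw [Finset.sum_insert hi0]; abel
      have h3 : φ g * φ ⟨mo x (E i0), mon_mem hx _ (hE i0)⟩ = φ (m i0) * (φ U - φ C) := by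
        rw [← map_mul, ← map_sub, ← map_mul]
        congr 1
        apply Subtype.ext
        change (g : K) * mo x (E i0) = m i0 * ((U : K) - C)
        rw [← hxm, ← hg1']
        ring
      have t1 : ow v ((∑ i ∈ insert i0 S, V i) + E0) (u i0 * g) =
          φ (u i0) * ow v ((∑ i ∈ S, V i) + E0) g + φ g * ow v (V i0) (u i0) := by
        rw [e1]; exact ow_mul v _ _ _ _
      have t2 : ow v ((∑ i ∈ insert i0 S, V i) + E0) (m i0 * (h i0 * C)) =
          φ (m i0) * (φ (h i0) * ow v (∑ i ∈ S, V i) C + φ C * ow v (V i0 + E i0) (h i0)) := by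
        rw [ow_mon v hmm, e2, ow_mul]
      rw [ow_add, t1, t2, hoC, hg2 κ φ v, hou, Finset.prod_insert hi0, Finset.sum_insert hi0,
        map_mul]
      change φ (u i0) * (φ U * _) + _ + _ = φ (u i0) * φ U * _
      have h4 := hφu κ φ i0
      field_simp
      linear_combination (ow v (V i0 + E i0) (h i0)) * h3

end chart

section pull

variable {k L K : Type u} [Field k] [Field L] [Field K] [Algebra k L] [Algebra k K] [Algebra L K]
  [IsScalarTower k L K] {T0 I0 T I : Type} [Fintype I0] [Fintype I]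
  {M0 : LM (⊥ : Subalgebra k L) ⊤ T0 I0} {M : LM (⊥ : Subalgebra k K) ⊤ T I} {π : T → T0}
  {Θ : I → I0 → ℤ}

/-- A component over a component which does not meet the chart. -/
lemma inv_pull (ho : Ovr M0 M π Θ) (t : T) (i : I) (i0 : I0) (h0 : 0 < Θ i i0)
    (h : (M0.x (π t) i0)⁻¹ ∈ M0.A (π t)) : (M.x t i)⁻¹ ∈ M.A t := by
  classical
  have h1 : algebraMap L K (M0.x (π t) i0)⁻¹ ∈ M.A t := ho.le t _ h
  have h2 : (M.x t i)⁻¹ = algebraMap L K (M0.x (π t) i0)⁻¹ *
      mo (M.x t) (fun i' => Θ i' i0 - if i' = i then 1 else 0) := by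
    have h3 : mo (M.x t) (fun i' => Θ i' i0 - if i' = i then 1 else 0) =
        (∏ i', M.x t i' ^ Θ i' i0) * (M.x t i)⁻¹ := by
      unfold mo
      have h4 : ∀ i', M.x t i' ^ (Θ i' i0 - if i' = i then 1 else 0) =
          M.x t i' ^ Θ i' i0 * (if i' = i then (M.x t i)⁻¹ else 1) := by
        intro i'
        by_cases h5 : i' = i
        · rw [if_pos h5, if_pos h5, zpow_sub₀ (M.x0 t i'), zpow_one, h5, div_eq_mul_inv]
        · rw [if_neg h5, if_neg h5, sub_zero, mul_one]
      rw [Finset.prod_congr rfl fun i' _ => h4 i', Finset.prod_mul_distrib,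
        Finset.prod_ite_eq' Finset.univ i]
      simp
    rw [h3, map_inv₀, ho.x, ← mul_assoc, inv_mul_cancel₀, one_mul]
    exact Finset.prod_ne_zero_iff.2 fun i' _ => zpow_ne_zero _ (M.x0 t i')
  rw [h2]
  refine (M.A t).mul_mem h1 (mon_mem (M.xA t) _ fun i' => Or.inl ?_)
  by_cases h5 : i' = i
  · rw [if_pos h5, h5]; omega
  · rw [if_neg h5]; have := ho.Θ0 i' i0; omega

/-- Nonnegative exponents. -/
lemma nonneg_pull (ho : Ovr M0 M π Θ) (t : T) {m : I0 → ℤ}
    (hm : ∀ i0, 0 ≤ m i0 ∨ (M0.x (π t) i0)⁻¹ ∈ M0.A (π t)) (i : I) :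
    0 ≤ ∑ i0, Θ i i0 * m i0 ∨ (M.x t i)⁻¹ ∈ M.A t := by
  by_cases hi : (M.x t i)⁻¹ ∈ M.A t
  · exact Or.inr hi
  · left
    refine Finset.sum_nonneg fun i0 _ => ?_
    rcases eq_or_lt_of_le (ho.Θ0 i i0) with h0 | h0
    · rw [← h0, zero_mul]
    · rcases hm i0 with h1 | h1
      · exact mul_nonneg h0.le h1
      · exact absurd (inv_pull ho t i i0 h0 h1) hi

end pull

section mul

variable {k L : Type u} [Field k] [Field L] [Algebra k L] {T0 I0 : Type} [Fintype I0] {ι : Type}
  [Fintype ι] {M0 : LM (⊥ : Subalgebra k L) ⊤ T0 I0} {n e : ι → I0 → ℤ} {h s : T0 → ι → L}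

/-- The product of powers. -/
noncomputable def pw (p : ℕ) (f : ι → L) (lam : ι → ZMod p) : L := ∏ j, f j ^ (lam j).val

theorem hnf_mul (hnorm : WD_norm.{u}) (p : ℕ) [Fact p.Prime] [CharP k p]
    (hB : BD M0 n e h s) (f : ι → L) (a u : T0 → ι → L) (ν : ι → I0 → ℤ)
    (heq : ∀ t j, f j = a t j ^ p + (∏ i, M0.x t i ^ n j i) * h t j)
    (hu0 : ∀ t j, u t j ≠ 0) (huA : ∀ t j, u t j ∈ M0.A t) (huA' : ∀ t j, (u t j)⁻¹ ∈ M0.A t)
    (hu : ∀ t j, f j = u t j * ∏ i, M0.x t i ^ ν j i) (hs : ∀ t j, s t j = (u t j)⁻¹)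
    (he : ∀ j i, e j i = n j i - ν j i) (he0 : ∀ t j i, 0 ≤ e j i ∨ (M0.x t i)⁻¹ ∈ M0.A t) :
    HNF (ZMod.castHom (dvd_refl p) k) p hB (pw p f) := by
  classical
  have hp : p.Prime := Fact.out
  intro K _ _ _ _ T I _ _ M π Θ ho hR Λ hroot lam hlam μ j0 e' hN
  have hcK : CharP K p := charP_of_injective_algebraMap (algebraMap k K).injective p
  choose w hw using fun t0 => hroot (μ t0) (hN.mem t0)
  let lr : T0 → ι → ZMod p := fun t0 => lam - μ t0
  -- exponents on `M`
  let P : (I0 → ℤ) → I → ℤ := fun m i => ∑ i0, Θ i i0 * m i0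
  have hPadd : ∀ m m', P (m + m') = P m + P m' := by
    intro m m'
    funext i
    change ∑ i0, Θ i i0 * (m i0 + m' i0) = ∑ i0, Θ i i0 * m i0 + ∑ i0, Θ i i0 * m' i0
    rw [← Finset.sum_add_distrib]
    exact Finset.sum_congr rfl fun i0 _ => mul_add _ _ _
  have hPsub : ∀ m m', P (m - m') = P m - P m' := by
    intro m m'
    funext i
    change ∑ i0, Θ i i0 * (m i0 - m' i0) = ∑ i0, Θ i i0 * m i0 - ∑ i0, Θ i i0 * m' i0
    rw [← Finset.sum_sub_distrib]
    exact Finset.sum_congr rfl fun i0 _ => mul_sub _ _ _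
  have hmo : ∀ t m, algebraMap L K (mo (M0.x (π t)) m) = mo (M.x t) (P m) := fun t m =>
    mo_pull ho t m
  have hne : ∀ l, n l = ν l + e l := fun l => funext fun i => by
    rw [Pi.add_apply, he]; ring
  -- elements of the charts
  let U : ∀ t, ι → M.A t := fun t l => ⟨_, ho.le t _ (huA (π t) l)⟩
  let H : ∀ t, ι → M.A t := fun t l => ⟨_, ho.le t _ (hB.hA (π t) l)⟩
  have hU0 : ∀ t l, (U t l : K) ≠ 0 := fun t l =>
    (_root_.map_ne_zero (algebraMap L K)).2 (hu0 (π t) l)
  have hUi : ∀ t l, (U t l : K)⁻¹ ∈ M.A t := fun t l => by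
    change (algebraMap L K _)⁻¹ ∈ _
    rw [← map_inv₀]
    exact ho.le t _ (huA' (π t) l)
  have hfU : ∀ t l, algebraMap L K (f l) = mo (M.x t) (P (ν l)) * (U t l : K) := by
    intro t l
    rw [hu (π t) l, map_mul, mul_comm]
    exact congrArg (· * _) (hmo t (ν l))
  have hEn : ∀ t l i, 0 ≤ P (e l) i ∨ (M.x t i)⁻¹ ∈ M.A t := fun t l i =>
    nonneg_pull ho t (he0 (π t) l) i
  have hle : ∀ t0 l, lr t0 l ≠ 0 → ∀ i, 0 ≤ (e l - e') i ∨ (M0.x t0 i)⁻¹ ∈ M0.A t0 := by
    intro t0 l hl i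
    rcases hN.eq t0 i with h1 | h1
    · rcases hN.le t0 l hl i with h2 | h2
      · left; rw [Pi.sub_apply]; omega
      · exact Or.inr h2
    · exact Or.inr h1
  have hEm : ∀ t l, lr (π t) l ≠ 0 → ∀ i, 0 ≤ (P (e l) - P e') i ∨ (M.x t i)⁻¹ ∈ M.A t := by
    intro t l hl i
    rw [← hPsub]
    exact nonneg_pull ho t (hle (π t) l hl) i
  let m : ∀ t, ι → M.A t := fun t l => if hl : lr (π t) l ≠ 0 then
    ⟨mo (M.x t) (P (e l) - P e'), mon_mem (M.xA t) _ (hEm t l hl)⟩ else 0
  have hm : ∀ t l (hl : lr (π t) l ≠ 0), m t l =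
      ⟨mo (M.x t) (P (e l) - P e'), mon_mem (M.xA t) _ (hEm t l hl)⟩ := fun t l hl => dif_pos hl
  let cc : ∀ t, ι → M.A t := fun t l =>
    U t l - ⟨mo (M.x t) (P (e l)), mon_mem (M.xA t) _ (hEn t l)⟩ * H t l
  have hcc : ∀ t l, (cc t l : K) = U t l - mo (M.x t) (P (e l)) * H t l := fun t l => rfl
  have hca : ∀ t l, mo (M.x t) (P (ν l)) * cc t l = algebraMap L K (a (π t) l) ^ p := by
    intro t l
    have h1 : algebraMap L K (f l) = algebraMap L K (a (π t) l) ^ p +
        mo (M.x t) (P (ν l) + P (e l)) * (H t l : K) := by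
      rw [heq (π t) l, map_add, map_pow, map_mul, ← hPadd, ← hne]
      exact congrArg _ (congrArg (· * _) (hmo t (n l)))
    rw [hfU t l] at h1
    rw [hcc, mul_sub, h1, mo_add (M.x0 t)]
    ring
  let S : ∀ t, Finset (Σ _ : ι, ℕ) := fun t =>
    (Finset.univ : Finset ι).sigma fun l => Finset.range (lr (π t) l).val
  have hSm : ∀ t (q : Σ _ : ι, ℕ), q ∈ S t → lr (π t) q.1 ≠ 0 := by
    intro t q hq h0
    have h1 := (Finset.mem_sigma.1 hq).2
    rw [h0, ZMod.val_zero] at h1
    simp at h1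
  have key : ∀ t, ∃ g : M.A t, mo (M.x t) (P e') * (g : K) =
      ((∏ q ∈ S t, U t q.1 - ∏ q ∈ S t, cc t q.1 : M.A t) : K) ∧
      ∀ (κ : Type u) [Field κ] [Algebra k κ] (φ : M.A t →ₐ[k] κ) (v : LT φ (M.x t)),
        ow v ((∑ q ∈ S t, P (ν q.1)) + P e') g =
          φ (∏ q ∈ S t, U t q.1) *
            ∑ q ∈ S t, φ (m t q.1) * ow v (P (ν q.1) + P (e q.1)) (H t q.1) / φ (U t q.1) := by
    intro t
    have := M.sm t
    refine exists_g' p (fun z hz => root_mem' hnorm hR hp.pos t hz) (M.snc t) (M.xA t) (M.x0 t)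
      (fun q : Σ _ : ι, ℕ => P (ν q.1)) (fun q => P (e q.1)) (fun q => U t q.1)
      (fun q => H t q.1) (fun q => m t q.1) (fun q => cc t q.1)
      (fun q => algebraMap L K (a (π t) q.1)) (fun q => hUi t q.1) (fun q => hU0 t q.1)
      (fun q => hEn t q.1) (fun q => hcc t q.1) (fun q => hca t q.1) (P e') (S t) ?_
    intro q hq
    have h0 := hSm t q hq
    exact ⟨by rw [hm t q.1 h0], hEm t q.1 h0⟩
  choose g hg1 hg2 using key
  -- carries
  have hcarry : ∀ t0 l, ∃ q : ℕ, (lam l).val + p * q = (lr t0 l).val + (μ t0 l).val := by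
    intro t0 l
    have h1 : lam l = lr t0 l + μ t0 l := by
      change lam l = (lam - μ t0) l + μ t0 l
      rw [Pi.sub_apply, sub_add_cancel]
    refine ⟨((lr t0 l).val + (μ t0 l).val) / p, ?_⟩
    have h2 : (lam l).val = ((lr t0 l).val + (μ t0 l).val) % p := by
      rw [h1, ZMod.val_add]
    rw [h2, Nat.mod_add_div]
  choose σ hσ using hcarry
  have hf0 : ∀ l, algebraMap L K (f l) ≠ 0 ∨ IsEmpty T0 := by
    intro l
    by_cases hT : Nonempty T0
    · obtain ⟨t0⟩ := hT
      left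
      rw [hu t0 l]
      exact (_root_.map_ne_zero (algebraMap L K)).2
        (mul_ne_zero (hu0 t0 l) (mo_ne (M0.x0 t0) _))
    · right
      exact not_nonempty_iff.1 hT
  let y : T → K := fun t => w (π t) * (∏ l, algebraMap L K (f l) ^ σ (π t) l)⁻¹
  let Uy : ∀ t, M.A t := fun t => (∏ l, U t l ^ (μ (π t) l).val) *
    ∏ l, (⟨_, hUi t l⟩ : M.A t) ^ (p * σ (π t) l)
  let Vm : (ι → ℤ) → I → ℤ := fun b => ∑ l, b l • P (ν l)
  have hVadd : ∀ b b', Vm (b + b') = Vm b + Vm b' := by
    intro b b'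
    change ∑ l, (b l + b' l) • P (ν l) = ∑ l, b l • P (ν l) + ∑ l, b' l • P (ν l)
    rw [← Finset.sum_add_distrib]
    exact Finset.sum_congr rfl fun l _ => add_smul _ _ _
  have hVmo : ∀ t (b : ι → ℤ), mo (M.x t) (Vm b) = ∏ l, mo (M.x t) (P (ν l)) ^ b l := by
    intro t b
    change mo (M.x t) (∑ l, b l • P (ν l)) = _
    rw [mo_sum (M.x0 t)]
    refine Finset.prod_congr rfl fun l _ => ?_
    unfold mo
    rw [← Finset.prod_zpow]
    refine Finset.prod_congr rfl fun i _ => ?_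
    rw [← zpow_mul, mul_comm]
    rfl
  have hSsum : ∀ t, ∑ q ∈ S t, P (ν q.1) = Vm (fun l => ((lr (π t) l).val : ℤ)) := by
    intro t
    rw [Finset.sum_sigma]
    refine Finset.sum_congr rfl fun l _ => ?_
    change ∑ _s ∈ Finset.range (lr (π t) l).val, P (ν l) = ((lr (π t) l).val : ℤ) • P (ν l)
    rw [Finset.sum_const, Finset.card_range, natCast_zsmul]
  have hSprod : ∀ t {B : Type u} [CommMonoid B] (F : ι → B), ∏ q ∈ S t, F q.1 =
      ∏ l, F l ^ (lr (π t) l).val := by
    intro t B _ F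
    rw [Finset.prod_sigma]
    refine Finset.prod_congr rfl fun l _ => ?_
    change ∏ _s ∈ Finset.range (lr (π t) l).val, F l = _
    rw [Finset.prod_const, Finset.card_range]
  -- the root
  have hyp : ∀ t, mo (M.x t) (Vm fun l => ((μ (π t) l).val : ℤ) - (p * σ (π t) l : ℕ)) *
      (Uy t : K) = y t ^ p := by
    intro t
    have h1 : (Uy t : K) = (∏ l, (U t l : K) ^ (μ (π t) l).val) *
        ∏ l, ((U t l : K)⁻¹) ^ (p * σ (π t) l) := by
      change (M.A t).val (Uy t) = _
      rw [map_mul, map_prod, map_prod]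
      congr 1
    have h2 : y t ^ p = (∏ l, algebraMap L K (f l) ^ (μ (π t) l).val) *
        (∏ l, (algebraMap L K (f l)) ^ (p * σ (π t) l))⁻¹ := by
      change (w (π t) * (∏ l, algebraMap L K (f l) ^ σ (π t) l)⁻¹) ^ p = _
      rw [mul_pow, hw, inv_pow, ← Finset.prod_pow]
      congr 1
      · change algebraMap L K (∏ l, f l ^ _) = _
        rw [map_prod]
        exact Finset.prod_congr rfl fun l _ => map_pow _ _ _
      · congr 1
        refine Finset.prod_congr rfl fun l _ => ?_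
        rw [← pow_mul, mul_comm]
    rw [h1, h2, hVmo, ← Finset.prod_inv_distrib, ← Finset.prod_mul_distrib,
      ← Finset.prod_mul_distrib, ← Finset.prod_mul_distrib]
    refine Finset.prod_congr rfl fun l _ => ?_
    have h3 := mo_ne (M.x0 t) (P (ν l))
    rw [hfU t l, zpow_sub₀ h3, zpow_natCast, zpow_natCast, mul_pow, mul_pow, inv_pow]
    have h4 := hU0 t l
    have h5 := pow_ne_zero (p * σ (π t) l) h3
    have h6 := pow_ne_zero (p * σ (π t) l) h4
    field_simp
  have hFlam : ∀ t, algebraMap L K (pw p f lam) = algebraMap L K (pw p f (lr (π t))) * y t ^ p := by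
    intro t
    have hf : ∀ l, algebraMap L K (f l) ≠ 0 := fun l =>
      (hf0 l).resolve_right (not_isEmpty_iff.2 ⟨π t⟩)
    have h1 : y t ^ p = algebraMap L K (pw p f (μ (π t))) *
        (∏ l, (algebraMap L K (f l)) ^ (p * σ (π t) l))⁻¹ := by
      change (w (π t) * (∏ l, algebraMap L K (f l) ^ σ (π t) l)⁻¹) ^ p = _
      rw [mul_pow, hw, inv_pow, ← Finset.prod_pow]
      congr 2
      refine Finset.prod_congr rfl fun l _ => ?_
      rw [← pow_mul, mul_comm]
    rw [h1, ← mul_assoc, eq_mul_inv_iff_mul_eq₀ (Finset.prod_ne_zero_iff.2 fun l _ =>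
      pow_ne_zero _ (hf l))]
    unfold pw
    rw [map_prod, map_prod, map_prod, ← Finset.prod_mul_distrib, ← Finset.prod_mul_distrib]
    refine Finset.prod_congr rfl fun l _ => ?_
    rw [map_pow, map_pow, map_pow, ← pow_add, ← pow_add, hσ]
  refine ⟨Vm (fun l => ((lam l).val : ℤ)) + P e',
    fun t => (∏ l, algebraMap L K (a (π t) l) ^ (lr (π t) l).val) * y t,
    fun t => ((Uy t * g t : M.A t) : K), fun t => (Uy t * g t).2, ?_, ?_⟩
  · intro t
    change _ = _ + mo (M.x t) _ * _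
    have hprodU : ((∏ q ∈ S t, U t q.1 : M.A t) : K) = ∏ l, (U t l : K) ^ (lr (π t) l).val := by
      change (M.A t).val _ = _
      rw [hSprod, map_prod]
      rfl
    have hprodc : ((∏ q ∈ S t, cc t q.1 : M.A t) : K) =
        ∏ l, (cc t l : K) ^ (lr (π t) l).val := by
      change (M.A t).val _ = _
      rw [hSprod, map_prod]
      rfl
    have h1 : algebraMap L K (pw p f (lr (π t))) =
        mo (M.x t) (Vm fun l => ((lr (π t) l).val : ℤ)) *
          ∏ l, (U t l : K) ^ (lr (π t) l).val := by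
      unfold pw
      rw [map_prod, hVmo, ← Finset.prod_mul_distrib]
      refine Finset.prod_congr rfl fun l _ => ?_
      rw [map_pow, hfU t l, mul_pow, zpow_natCast]
    have h2 : (∏ l, algebraMap L K (a (π t) l) ^ (lr (π t) l).val) ^ p =
        mo (M.x t) (Vm fun l => ((lr (π t) l).val : ℤ)) *
          ∏ l, (cc t l : K) ^ (lr (π t) l).val := by
      rw [hVmo, ← Finset.prod_mul_distrib, ← Finset.prod_pow]
      refine Finset.prod_congr rfl fun l _ => ?_
      rw [← pow_mul, mul_comm _ p, pow_mul, ← hca, mul_pow, zpow_natCast]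
    have h3 : mo (M.x t) (P e') * (g t : K) = (∏ l, (U t l : K) ^ (lr (π t) l).val) -
        ∏ l, (cc t l : K) ^ (lr (π t) l).val := by
      rw [hg1, ← hprodU, ← hprodc]
      rfl
    have h4 : mo (M.x t) (Vm (fun l => ((lam l).val : ℤ)) + P e') =
        mo (M.x t) (Vm fun l => ((lr (π t) l).val : ℤ)) *
        mo (M.x t) (Vm fun l => ((μ (π t) l).val : ℤ) - (p * σ (π t) l : ℕ)) *
        mo (M.x t) (P e') := by
      rw [← mo_add (M.x0 t), ← mo_add (M.x0 t), ← hVadd]
      congr 3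
      funext l
      have := hσ (π t) l
      rw [Pi.add_apply]
      omega
    have h5 : ((Uy t * g t : M.A t) : K) = (Uy t : K) * g t := rfl
    rw [hFlam t, h1]
    change _ * y t ^ p = ((∏ l, algebraMap L K (a (π t) l) ^ (lr (π t) l).val) * y t) ^ p +
      mo (M.x t) (Vm (fun l => ((lam l).val : ℤ)) + P e') * ((Uy t * g t : M.A t) : K)
    rw [mul_pow (∏ l, algebraMap L K (a (π t) l) ^ (lr (π t) l).val) (y t) p, h2, h4, h5,
      ← hyp t]
    linear_combination (-1 : K) * (mo (M.x t) (Vm fun l => ((lr (π t) l).val : ℤ)) *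
      (mo (M.x t) (Vm fun l => ((μ (π t) l).val : ℤ) - (p * σ (π t) l : ℕ)) * (Uy t : K))) * h3
  · intro t κ _ _ φ
    have hunit : mo (M0.x (π t)) (e (j0 (π t)) - e') ∈ M0.A (π t) :=
      mon_mem (M0.xA _) _ (hle (π t) _ (hN.ne _))
    have hunit' : mo (M0.x (π t)) (e' - e (j0 (π t))) ∈ M0.A (π t) := by
      refine mon_mem (M0.xA _) _ fun i => ?_
      rcases hN.eq (π t) i with h1 | h1
      · left; rw [Pi.sub_apply]; omega
      · exact Or.inr h1
    have hinv : ∀ z : M.A t, (z : K) ≠ 0 → (z : K)⁻¹ ∈ M.A t → φ z ≠ 0 := by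
      intro z hz0 hz h0
      have h1 : φ z * φ ⟨_, hz⟩ = 1 := by
        rw [← map_mul, ← map_one φ]
        congr 1
        exact Subtype.ext (mul_inv_cancel₀ hz0)
      rw [h0, zero_mul] at h1
      exact zero_ne_one h1
    have hφU : ∀ l, φ (U t l) ≠ 0 := fun l => hinv _ (hU0 t l) (hUi t l)
    have hφU' : ∀ l, φ ⟨_, hUi t l⟩ ≠ 0 := fun l => hinv _ (inv_ne_zero (hU0 t l)) (by
      change ((U t l : K)⁻¹)⁻¹ ∈ _
      rw [inv_inv]
      exact (U t l).2)
    have hφUy : φ (Uy t) ≠ 0 := by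
      change φ ((∏ l, U t l ^ (μ (π t) l).val) *
        ∏ l, (⟨_, hUi t l⟩ : M.A t) ^ (p * σ (π t) l)) ≠ 0
      rw [map_mul, map_prod, map_prod]
      refine mul_ne_zero (Finset.prod_ne_zero_iff.2 fun l _ => ?_)
        (Finset.prod_ne_zero_iff.2 fun l _ => ?_)
      · rw [map_pow]; exact pow_ne_zero _ (hφU l)
      · rw [map_pow]; exact pow_ne_zero _ (hφU' l)
    refine ⟨φ (Uy t) * φ (∏ q ∈ S t, U t q.1) * φ ⟨_, ho.le t _ hunit⟩,
      mul_ne_zero (mul_ne_zero hφUy ?_) ?_, ?_⟩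
    · rw [map_prod]
      exact Finset.prod_ne_zero_iff.2 fun q _ => hφU q.1
    · refine hinv _ ((_root_.map_ne_zero (algebraMap L K)).2 (mo_ne (M0.x0 _) _)) ?_
      change (algebraMap L K _)⁻¹ ∈ _
      have h1 : (mo (M0.x (π t)) (e (j0 (π t)) - e'))⁻¹ =
          mo (M0.x (π t)) (e' - e (j0 (π t))) := by
        symm
        apply eq_inv_of_mul_eq_one_right
        rw [← mo_add (M0.x0 _)]
        have h2 : e (j0 (π t)) - e' + (e' - e (j0 (π t))) = 0 := by abel
        rw [h2, mo_zero]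
      rw [← map_inv₀, h1]
      exact ho.le t _ hunit'
    · intro ψ v0 v hc
      have hsm := M.sm t
      have hroot0 : ow v (Vm fun l => ((μ (π t) l).val : ℤ) - (p * σ (π t) l : ℕ)) (Uy t) = 0 :=
        ow_root p (fun z hz => root_mem' hnorm hR hp.pos t hz) (M.snc t) (M.xA t) (M.x0 t) v _ _
          (y t) (hyp t)
      have h4 : Vm (fun l => ((lam l).val : ℤ)) + P e' =
          ((∑ q ∈ S t, P (ν q.1)) + P e') +
          Vm (fun l => ((μ (π t) l).val : ℤ) - (p * σ (π t) l : ℕ)) := by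
        rw [hSsum]
        have h5 : Vm (fun l => ((lam l).val : ℤ)) = Vm (fun l => ((lr (π t) l).val : ℤ)) +
            Vm (fun l => ((μ (π t) l).val : ℤ) - (p * σ (π t) l : ℕ)) := by
          rw [← hVadd]
          congr 1
          funext l
          have := hσ (π t) l
          rw [Pi.add_apply]
          omega
        rw [h5]
        abel
      change ow v (Vm (fun l => ((lam l).val : ℤ)) + P e') (Uy t * g t) = _
      rw [h4, mul_comm (Uy t), ow_mul, hroot0, mul_zero, zero_add, hg2]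
      have h6 : ∀ F : ι → κ, ∑ q ∈ S t, F q.1 = ∑ l, ((lr (π t) l).val : κ) * F l := by
        intro F
        rw [Finset.sum_sigma]
        refine Finset.sum_congr rfl fun l _ => ?_
        change ∑ _s ∈ Finset.range (lr (π t) l).val, F l = _
        rw [Finset.sum_const, Finset.card_range, nsmul_eq_mul]
      rw [h6 fun l => φ (m t l) * ow v (P (ν l) + P (e l)) (H t l) / φ (U t l), mul_assoc,
        mul_assoc]
      congr 2
      unfold pf
      rw [Finset.mul_sum]
      refine Finset.sum_congr rfl fun l _ => ?_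
      have hcast : ((algebraMap k κ).comp (ZMod.castHom (dvd_refl p) k)) (lr (π t) l) =
          ((lr (π t) l).val : κ) := by
        have h7 : (ZMod.castHom (dvd_refl p) k) (lr (π t) l) = ((lr (π t) l).val : k) := by
          conv_lhs => rw [← ZMod.natCast_zmod_val (lr (π t) l)]
          rw [map_natCast]
        rw [RingHom.comp_apply, h7, map_natCast]
      change _ = _ * (((algebraMap k κ).comp (ZMod.castHom (dvd_refl p) k)) (lr (π t) l) * _ * _)
      rw [hcast]
      by_cases hl : lr (π t) l = 0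
      · rw [hl, ZMod.val_zero]
        push_cast
        ring
      · have h7 : φ (m t l) = φ ⟨_, ho.le t _ hunit⟩ * EE e ψ (M0.x (π t)) (j0 (π t)) l := by
          have h8 : mo (M0.x (π t)) (e l - e (j0 (π t))) ∈ M0.A (π t) :=
            mo_mem (M0.xA _) (hN.le _ l hl)
          unfold EE
          rw [ev_eq ψ h8, ← hc.vv _ h8 (ho.le t _ h8), ← map_mul]
          congr 1
          apply Subtype.ext
          rw [hm t l hl]
          change mo (M.x t) (P (e l) - P e') = algebraMap L K _ * algebraMap L K _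
          rw [← map_mul, ← mo_add (M0.x0 _), hmo]
          congr 1
          rw [← hPsub]
          congr 1
          abel
        have h9 : ow v (P (ν l) + P (e l)) (H t l) = om v0 (n l) (hB.hA (π t) l) := by
          rw [← hPadd, ← hne]
          exact hc.om (n l) (hB.hA (π t) l) _
        have h10 : hB.W v0 l = om v0 (n l) (hB.hA (π t) l) / φ (U t l) := by
          unfold BD.W
          have h11 : ψ ⟨s (π t) l, hB.sA (π t) l⟩ * φ (U t l) = 1 := by
            rw [hc.vv _ (huA (π t) l) _, ← map_mul, ← map_one ψ]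
            congr 1
            apply Subtype.ext
            change s (π t) l * u (π t) l = 1
            rw [hs, inv_mul_cancel₀ (hu0 _ _)]
          rw [eq_div_iff (hφU l), mul_right_comm, h11, one_mul]
        rw [h7, h9, h10]
        ring

end mul

end Pool.Agent.TH188.WQ
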