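import Pool.Agent.TH188.WQ.Defs
import Pool.Agent.W558.WD.Asm4
import Pool.Agent.W349.WD.Sum

/-!
# One purely inseparable extension of degree `p`, relative version
-/

set_option autoImplicit false
set_option linter.unusedVariables false
set_option linter.unusedSectionVars false

universe u

open Polynomial Pool.Agent.W558

namespace Pool.Agent.TH188.WQ

/-- Models of the purely inseparable extension, with lifting of logarithmic tangent vectors. -/
theorem exists_root (hbun : WQ_bun.{u}) (hppr : WQ_ppr.{u}) (hpcut : WQ_pcut.{u}) (p : ℕ)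
    [Fact p.Prime] (k L K : Type u) [Field k] [PerfectField k] [CharP k p] [Field L] [Field K]
    [Algebra k L] [Algebra k K] [Algebra L K] [IsScalarTower k L K] {T I G : Type} [Finite T]
    [Fintype I] (M : LM (⊥ : Subalgebra k L) ⊤ T I) (f : L) (n : I → ℤ) (a h : T → L)
    (g : G → L) (Γ : G → I → ℤ) (hN : NFH p M f n a h) (hR : Frc M) (hG : Fn M g Γ)
    (hf : ∀ b : L, b ^ p ≠ f) (z : K) (hz : z ^ p = algebraMap L K f)
    (hgen : ∀ w : K, ∃ P : L[X], aeval z P = w) :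
    ∃ (T' I' : Type) (_ : Finite T') (_ : Fintype I') (M' : LM (⊥ : Subalgebra k K) ⊤ T' I')
      (π' : T' → T) (Θ' : I' → I → ℤ) (ho : Ovr M M' π' Θ') (Γ' : G → I' → ℤ),
      CLift ho n h hN.hA ∧ Fn M' (fun b => algebraMap L K (g b)) Γ' ∧ Frc M' := by
  have hp : p.Prime := Fact.out
  have hirr : Irreducible (X ^ p - C f : L[X]) := X_pow_sub_C_irreducible_of_prime hp hf
  have hF : Prime (X ^ p - C f : L[X]) := hirr.prime
  have hz0 : aeval z (X ^ p - C f : L[X]) = 0 := by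
    rw [map_sub, map_pow, aeval_X, aeval_C, hz, sub_self]
  have hz' : ∀ P : L[X], aeval z P = 0 ↔ (X ^ p - C f : L[X]) ∣ P := by
    intro P
    have h1 : minpoly L z = X ^ p - C f :=
      (minpoly.eq_of_irreducible_of_monic hirr hz0 (monic_X_pow_sub_C f hp.ne_zero)).symm
    rw [← h1]
    exact (minpoly.dvd_iff).symm
  let N := FractionRing L[X]
  let Z : N := algebraMap L[X] N X
  have hZ : ∀ P : L[X], aeval Z P = algebraMap L[X] N P := by
    intro P
    have h1 : aeval Z = IsScalarTower.toAlgHom L L[X] N := by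
      ext; simp [Z]
    rw [h1]; rfl
  have htr : Transcendental L Z := by
    rw [transcendental_iff]
    intro P hP
    rw [hZ] at hP
    exact (FaithfulSMul.algebraMap_eq_zero_iff L[X] N).1 hP
  have hfr : ∀ x : N, ∃ P P' : L[X], P' ≠ 0 ∧ x * aeval Z P' = aeval Z P := by
    intro x
    obtain ⟨P, P', hP, rfl⟩ := IsFractionRing.div_surjective (A := L[X]) x
    have h0 := nonZeroDivisors.ne_zero hP
    refine ⟨P, P', h0, ?_⟩
    rw [hZ, hZ, div_mul_cancel₀ _ (alg_ne_zero h0)]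
  have hQ : IsQ p Z f (FQ (k := k) hF) := by
    intro x
    simp only [hZ]
    exact mem_FQ hF
  obtain ⟨T1, I1, hT1, hI1, M1, y1, c1, μ1, Γ1, π1, Θ1, hP1, hL1, hF1, hlf1, hce1⟩ :=
    hbun p k L N T I G M f n a h g Γ hN hR hG hf Z htr hfr (FQ (k := k) hF) hQ
  obtain ⟨T2, I2, hT2, hI2, M2, y2, c2, μ2, Γ2, π2, Θ2, hP2, hL2, hF2, hfin, hov2, hce2⟩ :=
    hppr p k N T1 I1 G M1 _ (FQ (k := k) hF) y1 (fun t => algebraMap L N (h (π1 t))) c1 μ1
      (fun b => algebraMap L N (g b)) Γ1 hP1 hL1 hF1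
  have eF : Z ^ p - algebraMap L N f = algebraMap L[X] N (X ^ p - C f) := by
    rw [← hZ, map_sub, map_pow, aeval_X, aeval_C]
  rw [eF] at hP2
  have hov : Ovr M M2 (fun t => π1 (π2 t)) (fun i2 i => ∑ i1, Θ2 i2 i1 * Θ1 i1 i) := by
    refine ⟨?_, ?_, ?_⟩
    · intro t a ha
      exact hov2.le t (hlf1.ov.le (π2 t) a ha)
    · intro t i
      rw [hlf1.ov.x (π2 t) i]
      have h1 : ∀ i1, M1.x (π2 t) i1 ^ Θ1 i1 i = ∏ i2, M2.x t i2 ^ (Θ2 i2 i1 * Θ1 i1 i) := by
        intro i1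
        rw [hov2.x, ← Finset.prod_zpow]
        exact Finset.prod_congr rfl fun i2 _ => by rw [zpow_mul]
      rw [Finset.prod_congr rfl fun i1 _ => h1 i1, Finset.prod_comm]
      refine Finset.prod_congr rfl fun i2 _ => ?_
      rw [Pool.Agent.W349.WD.Sum.zpow_sum' (M2.x0 t i2)]
    · intro i2 i
      exact Finset.sum_nonneg fun i1 _ => mul_nonneg (hov2.Θ0 i2 i1) (hlf1.ov.Θ0 i1 i)
  have hlf : LfP M M2 y2 (fun t => π1 (π2 t)) (fun i2 i => ∑ i1, Θ2 i2 i1 * Θ1 i1 i) := by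
    refine ⟨hov, ?_⟩
    intro t κ _ _ φ v0
    obtain ⟨v1, hv1, hv1'⟩ := hlf1.lf (π2 t) κ (φ.comp (Subalgebra.inclusion (hov2.le t))) v0
    obtain ⟨v2, hv2, hv2'⟩ := hov2.lt t κ φ v1
    refine ⟨v2, ?_, ?_⟩
    · intro a ha
      rw [← hv1 a ha]
      exact hv2 _ _
    · intro i
      rw [← hv1' i]
      have h1 : ∀ i2, ((∑ i1, Θ2 i2 i1 * Θ1 i1 i : ℤ) : κ) * v2.e (some i2) =
          ∑ i1, (Θ1 i1 i : κ) * ((Θ2 i2 i1 : κ) * v2.e (some i2)) := by
        intro i2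
        push_cast
        rw [Finset.sum_mul]
        exact Finset.sum_congr rfl fun i1 _ => by ring
      rw [Finset.sum_congr rfl fun i2 _ => h1 i2, Finset.sum_comm]
      refine Finset.sum_congr rfl fun i1 _ => ?_
      rw [← Finset.mul_sum, hv2' i1]
  have hce : ∀ i2, c2 i2 + p * μ2 i2 = ∑ i, (∑ i1, Θ2 i2 i1 * Θ1 i1 i) * n i := by
    intro i2
    rw [hce2]
    have h1 : ∀ i, (∑ i1, Θ2 i2 i1 * Θ1 i1 i) * n i = ∑ i1, Θ2 i2 i1 * (Θ1 i1 i * n i) := by
      intro i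
      rw [Finset.sum_mul]
      exact Finset.sum_congr rfl fun i1 _ => by ring
    rw [Finset.sum_congr rfl fun i _ => h1 i, Finset.sum_comm]
    refine Finset.sum_congr rfl fun i1 _ => ?_
    rw [hce1, Finset.mul_sum]
  refine hpcut p k L N K T I T2 I2 G M n h hN.hA M2 _ (FQ (k := k) hF) y2 c2 μ2 g
    Γ2 _ _ hP2 hL2 hF2 hfin hlf hce (mem_FQ_of hF) (alg_ne_zero hF.ne_zero) (piZ hF z hz')
    (piZ_eq_zero hF z hz') (piZ_surj hF z hz' hgen) (FQ_total hF) ?_
  intro l hl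
  have h1 : algebraMap L N l = algebraMap L[X] N (C l) := by
    rw [← hZ, aeval_C]
  have h2 : (⟨algebraMap L N l, hl⟩ : FQ (k := k) hF) =
      ⟨algebraMap L[X] N (C l), mem_FQ_of hF⟩ := Subtype.ext h1
  rw [h2, piZ_alg, aeval_C]

end Pool.Agent.TH188.WQ
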