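import Pool.Agent.TH188.WQ.Lin
import Pool.Agent.TH188.WQ.Root
import Pool.Agent.TH188.WP.Chart
import Pool.Agent.W498.Tor.Tor

/-!
# Towers of purely inseparable extensions
-/

set_option autoImplicit false
set_option linter.unusedVariables false
set_option linter.unusedSectionVars false

universe u w

open Polynomial Pool.Agent.W558 Pool.Agent.TH188.WP Pool.Agent.W498.Tor

namespace Pool.Agent.TH188.WQ

section lc

variable {k K : Type u} [Field k] [Field K] [Algebra k K] {A : Subalgebra k K} {κ : Type u}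
  [Field κ] [Algebra k κ] {φ : A →ₐ[k] κ} {I : Type} {x : I → K}

/-- Linear combinations of logarithmic tangent vectors. -/
def lc (c d : κ) (v w : LT φ x) : LT φ x where
  D := TV.comb c d v.D w.D
  e := fun i => c * v.e i + d * w.e i
  hx := by
    intro i h
    rw [TV.comb_D, v.hx i h, w.hx i h]
    ring

lemma om_lc [Fintype I] (c d : κ) (v w : LT φ x) (n : I → ℤ) {h : K} (hh : h ∈ A) :
    om (lc c d v w) n hh = c * om v n hh + d * om w n hh := by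
  unfold om
  change (TV.comb c d v.D w.D).D ⟨h, hh⟩ + φ ⟨h, hh⟩ * ∑ i, (n i : κ) * (c * v.e i + d * w.e i) = _
  rw [TV.comb_D]
  have e1 : ∑ i, (n i : κ) * (c * v.e i + d * w.e i) =
      c * ∑ i, (n i : κ) * v.e i + d * ∑ i, (n i : κ) * w.e i := by
    rw [Finset.mul_sum, Finset.mul_sum, ← Finset.sum_add_distrib]
    refine Finset.sum_congr rfl fun i _ => by ring
  rw [e1]
  ring

/-- The value of `z` at the point `φ`. -/
noncomputable def ev (φ : A →ₐ[k] κ) (z : K) : κ :=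
  open Classical in if h : z ∈ A then φ ⟨z, h⟩ else 0

lemma ev_eq (φ : A →ₐ[k] κ) {z : K} (h : z ∈ A) : ev φ z = φ ⟨z, h⟩ := dif_pos h

lemma ev_mul (φ : A →ₐ[k] κ) {z w : K} (hz : z ∈ A) (hw : w ∈ A) :
    ev φ (z * w) = ev φ z * ev φ w := by
  rw [ev_eq φ hz, ev_eq φ hw, ev_eq φ (A.mul_mem hz hw), ← map_mul]
  rfl

lemma ev_one (φ : A →ₐ[k] κ) : ev φ 1 = 1 := by
  rw [ev_eq φ A.one_mem]
  exact map_one φ

/-- The values of the monomials with the exponents `e l - e j`. -/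
noncomputable def EE {ι : Type} [Fintype I] (e : ι → I → ℤ) (φ : A →ₐ[k] κ) (x : I → K)
    (j l : ι) : κ := ev φ (mo x (e l - e j))

lemma EE_self {ι : Type} [Fintype I] (e : ι → I → ℤ) (φ : A →ₐ[k] κ) (x : I → K) (j : ι) :
    EE e φ x j j = 1 := by
  unfold EE
  rw [sub_self, mo_zero, ev_one]

lemma mo_mem {ι : Type} [Fintype I] {e : ι → I → ℤ} (hx : ∀ i, x i ∈ A) {j l : ι}
    (h : ∀ i, e j i ≤ e l i ∨ (x i)⁻¹ ∈ A) : mo x (e l - e j) ∈ A := by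
  refine mon_mem hx _ fun i => ?_
  rcases h i with h1 | h1
  · left; rw [Pi.sub_apply]; omega
  · exact Or.inr h1

lemma EE_mul {ι : Type} [Fintype I] {e : ι → I → ℤ} (φ : A →ₐ[k] κ) (hx : ∀ i, x i ∈ A)
    (hx0 : ∀ i, x i ≠ 0) {j r l : ι} (h1 : ∀ i, e j i ≤ e r i ∨ (x i)⁻¹ ∈ A)
    (h2 : ∀ i, e r i ≤ e l i ∨ (x i)⁻¹ ∈ A) : EE e φ x j l = EE e φ x j r * EE e φ x r l := by
  unfold EE
  rw [← ev_mul φ (mo_mem hx h1) (mo_mem hx h2), ← mo_add hx0]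
  congr 2
  abel

end lc

section base

variable {k L : Type u} [Field k] [Field L] [Algebra k L] {T0 I0 : Type} [Fintype I0] {ι : Type}

/-- A model with functions `h j`, such that the forms `s j * d (x ^ n j * h j) / x ^ n j` are
linearly independent at all points; the exponents `e j` are comparable on each chart. -/
structure BD (M0 : LM (⊥ : Subalgebra k L) ⊤ T0 I0) (n e : ι → I0 → ℤ)
    (h s : T0 → ι → L) : Prop where
  hA : ∀ t j, h t j ∈ M0.A t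
  sA : ∀ t j, s t j ∈ M0.A t
  cmp : ∀ t j l, (∀ i, e j i ≤ e l i ∨ (M0.x t i)⁻¹ ∈ M0.A t) ∨
    (∀ i, e l i ≤ e j i ∨ (M0.x t i)⁻¹ ∈ M0.A t)
  ln : ∀ t (κ : Type u) [Field κ] [Algebra k κ] (φ : M0.A t →ₐ[k] κ) (j : ι),
    ∃ v : LT φ (M0.x t), φ ⟨s t j, sA t j⟩ * om v (n j) (hA t j) ≠ 0 ∧
      ∀ l, l ≠ j → φ ⟨s t l, sA t l⟩ * om v (n l) (hA t l) = 0

variable {M0 : LM (⊥ : Subalgebra k L) ⊤ T0 I0} {n e : ι → I0 → ℤ} {h s : T0 → ι → L}

/-- The values of the forms. -/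
def BD.W (hB : BD M0 n e h s) {t : T0} {κ : Type u} [Field κ] [Algebra k κ]
    {φ : M0.A t →ₐ[k] κ} (v : LT φ (M0.x t)) (j : ι) : κ :=
  φ ⟨s t j, hB.sA t j⟩ * om v (n j) (hB.hA t j)

lemma BD.W_lc (hB : BD M0 n e h s) {t : T0} {κ : Type u} [Field κ] [Algebra k κ]
    {φ : M0.A t →ₐ[k] κ} (c d : κ) (v w : LT φ (M0.x t)) (j : ι) :
    hB.W (lc c d v w) j = c * hB.W v j + d * hB.W w j := by
  unfold BD.W
  rw [om_lc]
  ring

lemma BD.W_surj [Fintype ι] (hB : BD M0 n e h s) {t : T0} {κ : Type u} [Field κ] [Algebra k κ]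
    (φ : M0.A t →ₐ[k] κ) (ξ : ι → κ) : ∃ v : LT φ (M0.x t), ∀ j, hB.W v j = ξ j := by
  classical
  choose v hv1 hv2 using fun j => hB.ln t κ φ j
  have h1 : ∀ j l, l ≠ j → hB.W (v j) l = 0 := fun j l hl => hv2 j l hl
  have h2 : ∀ j, hB.W (v j) j ≠ 0 := fun j => hv1 j
  have key : ∀ S : Finset ι, ∃ w : LT φ (M0.x t), ∀ j, hB.W w j = if j ∈ S then ξ j else 0 := by
    intro S
    induction S using Finset.induction_on with
    | empty =>
      by_cases hi : Nonempty ι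
      · obtain ⟨j⟩ := hi
        refine ⟨lc 0 0 (v j) (v j), fun l => ?_⟩
        rw [hB.W_lc]
        simp
      · refine ⟨⟨TV.zero φ, fun _ => 0, fun i hi => by simp⟩, fun l => absurd ⟨l⟩ hi⟩
    | insert a S ha ih =>
      obtain ⟨w, hw⟩ := ih
      refine ⟨lc 1 (ξ a / hB.W (v a) a) w (v a), fun j => ?_⟩
      rw [hB.W_lc, hw, one_mul]
      by_cases hj : j = a
      · subst hj
        rw [if_neg ha, if_pos (Finset.mem_insert_self _ _), div_mul_cancel₀ _ (h2 j), zero_add]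
      · rw [h1 a j hj, mul_zero, add_zero]
        simp only [Finset.mem_insert, hj, false_or]
  obtain ⟨w, hw⟩ := key Finset.univ
  exact ⟨w, fun j => by rw [hw, if_pos (Finset.mem_univ j)]⟩

end base

section cp

variable {k L K : Type u} [Field k] [Field L] [Field K] [Algebra k L] [Algebra k K] [Algebra L K]
  [IsScalarTower k L K]

/-- The logarithmic tangent vector `v` lies over `v0`. -/
structure Cp {A0 : Subalgebra k L} {A : Subalgebra k K} {κ : Type u} [Field κ] [Algebra k κ]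
    {ψ : A0 →ₐ[k] κ} {φ : A →ₐ[k] κ} {I0 I : Type} [Fintype I0] [Fintype I] {x0 : I0 → L}
    {x : I → K} (v0 : LT ψ x0) (v : LT φ x) (Θ : I → I0 → ℤ) : Prop where
  vv : ∀ a (ha : a ∈ A0) (ha' : algebraMap L K a ∈ A), φ ⟨algebraMap L K a, ha'⟩ = ψ ⟨a, ha⟩
  dd : ∀ a (ha : a ∈ A0) (ha' : algebraMap L K a ∈ A),
    v.D.D ⟨algebraMap L K a, ha'⟩ = v0.D.D ⟨a, ha⟩
  ee : ∀ i0, ∑ i, (Θ i i0 : κ) * v.e i = v0.e i0

lemma Cp.om {A0 : Subalgebra k L} {A : Subalgebra k K} {κ : Type u} [Field κ] [Algebra k κ]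
    {ψ : A0 →ₐ[k] κ} {φ : A →ₐ[k] κ} {I0 I : Type} [Fintype I0] [Fintype I] {x0 : I0 → L}
    {x : I → K} {v0 : LT ψ x0} {v : LT φ x} {Θ : I → I0 → ℤ} (hc : Cp v0 v Θ) (n : I0 → ℤ)
    {h : L} (hh : h ∈ A0) (hh' : algebraMap L K h ∈ A) :
    om v (fun i => ∑ i0, Θ i i0 * n i0) hh' = om v0 n hh := by
  unfold Pool.Agent.W558.om
  have h1 : ∑ i, ((∑ i0, Θ i i0 * n i0 : ℤ) : κ) * v.e i = ∑ i0, (n i0 : κ) * v0.e i0 := by
    have h2 : ∀ i, ((∑ i0, Θ i i0 * n i0 : ℤ) : κ) * v.e i =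
        ∑ i0, (n i0 : κ) * ((Θ i i0 : κ) * v.e i) := by
      intro i
      push_cast
      rw [Finset.sum_mul]
      exact Finset.sum_congr rfl fun i0 _ => by ring
    rw [Finset.sum_congr rfl fun i _ => h2 i, Finset.sum_comm]
    refine Finset.sum_congr rfl fun i0 _ => ?_
    rw [← Finset.mul_sum, hc.ee i0]
  rw [h1, hc.dd h hh, hc.vv h hh]

end cp

section stage

variable {k L : Type u} [Field k] [Field L] [Algebra k L] {T0 I0 : Type} [Fintype I0] {ι : Type}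
  [Fintype ι] {C : Type w} [Field C] (c : C →+* k)
  {M0 : LM (⊥ : Subalgebra k L) ⊤ T0 I0} {n e : ι → I0 → ℤ} {h s : T0 → ι → L}

/-- The order of the exponents on the chart `t`. -/
def lt' (M0 : LM (⊥ : Subalgebra k L) ⊤ T0 I0) (e : ι → I0 → ℤ) (t : T0) (j l : ι) : Prop :=
  ∀ i, e j i ≤ e l i ∨ (M0.x t i)⁻¹ ∈ M0.A t

/-- The model `M` of the extension `K` of `L` lies over the model `M0` of `L`; logarithmic tangent
vectors can be lifted if the forms of the combinations in `Λ` vanish. -/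
structure Stg (hB : BD M0 n e h s) {K : Type u} [Field K] [Algebra k K] [Algebra L K]
    [IsScalarTower k L K] {T I : Type} [Fintype I] (M : LM (⊥ : Subalgebra k K) ⊤ T I)
    (π : T → T0) (Θ : I → I0 → ℤ) (Λ : Submodule C (ι → C)) : Prop where
  ov : Ovr M0 M π Θ
  lf : ∀ t (κ : Type u) [Field κ] [Algebra k κ] (φ : M.A t →ₐ[k] κ) (ψ : M0.A (π t) →ₐ[k] κ),
    (∀ a (ha : a ∈ M0.A (π t)), φ ⟨algebraMap L K a, ov.le t a ha⟩ = ψ ⟨a, ha⟩) →
    ∀ v0 : LT ψ (M0.x (π t)),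
      Kil (lt' M0 e (π t)) ((algebraMap k κ).comp c) (EE e ψ (M0.x (π t))) Λ (hB.W v0) →
      ∃ v : LT φ (M.x t), Cp v0 v Θ

/-- The functions `F lam` have a normal form on all models over `M0` where the functions `F μ`,
`μ ∈ Λ`, are `p`-th powers. -/
def HNF (p : ℕ) (hB : BD M0 n e h s) (F : (ι → C) → L) : Prop :=
  ∀ (K : Type u) [Field K] [Algebra k K] [Algebra L K] [IsScalarTower k L K] (T I : Type)
    [Finite T] [Fintype I] (M : LM (⊥ : Subalgebra k K) ⊤ T I) (π : T → T0) (Θ : I → I0 → ℤ),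
    Ovr M0 M π Θ → Frc M → ∀ Λ : Submodule C (ι → C),
    (∀ μ ∈ Λ, ∃ w : K, w ^ p = algebraMap L K (F μ)) → ∀ lam : ι → C, lam ∉ Λ →
    ∀ (μ : T0 → ι → C) (j0 : T0 → ι) (e' : I0 → ℤ),
    Nrm.{u} (fun t i => (M0.x t i)⁻¹ ∈ M0.A t) e Λ lam μ j0 e' →
    ∃ (n' : I → ℤ) (a' h' : T → K) (hA' : ∀ t, h' t ∈ M.A t),
      (∀ t, algebraMap L K (F lam) = a' t ^ p + (∏ i, M.x t i ^ n' i) * h' t) ∧
      ∀ t (κ : Type u) [Field κ] [Algebra k κ] (φ : M.A t →ₐ[k] κ), ∃ u : κ, u ≠ 0 ∧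
        ∀ (ψ : M0.A (π t) →ₐ[k] κ) (v0 : LT ψ (M0.x (π t))) (v : LT φ (M.x t)), Cp v0 v Θ →
          om v n' (hA' t) = u * pf ((algebraMap k κ).comp c) (EE e ψ (M0.x (π t))) (hB.W v0)
            (lam - μ (π t)) (j0 (π t))

variable {K : Type u} [Field K] [Algebra k K] [Algebra L K] [IsScalarTower k L K] {T I : Type}
  [Finite T] [Fintype I] {M : LM (⊥ : Subalgebra k K) ⊤ T I} {π : T → T0} {Θ : I → I0 → ℤ}
  {Λ : Submodule C (ι → C)}

/-- The normal form. -/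
theorem Stg.nfh {p : ℕ} {hB : BD M0 n e h s} (hS : Stg c hB M π Θ Λ) {F : (ι → C) → L}
    (hF : HNF c p hB F) (hR : Frc M) (hw : ∀ μ ∈ Λ, ∃ w : K, w ^ p = algebraMap L K (F μ))
    {lam : ι → C} (hlam : lam ∉ Λ) :
    ∃ (n' : I → ℤ) (a' h' : T → K) (hN : NFH p M (algebraMap L K (F lam)) n' a' h'),
      ∀ t (κ : Type u) [Field κ] [Algebra k κ] (φ : M.A t →ₐ[k] κ)
        (ψ : M0.A (π t) →ₐ[k] κ) (v0 : LT ψ (M0.x (π t))) (v : LT φ (M.x t)), Cp v0 v Θ →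
        Kil (lt' M0 e (π t)) ((algebraMap k κ).comp c) (EE e ψ (M0.x (π t)))
          (Λ ⊔ Submodule.span C {lam}) (hB.W v0) → om v n' (hN.hA t) = 0 := by
  obtain ⟨μ, j0, e', hNrm⟩ := exists_nrm.{u} (fun t i => (M0.x t i)⁻¹ ∈ M0.A t) e hB.cmp Λ lam
    hlam
  obtain ⟨n', a', h', hA', heq, hom⟩ := hF K T I M π Θ hS.ov hR Λ hw lam hlam μ j0 e' hNrm
  refine ⟨n', a', h', ⟨hA', heq, ?_⟩, ?_⟩
  · intro t κ _ _ φ
    obtain ⟨u, hu, hu'⟩ := hom t κ φ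
    let ψ : M0.A (π t) →ₐ[k] κ := φ.comp (ci (hS.ov.le t))
    obtain ⟨ξ, hξ1, hξ2⟩ := hNrm.kil (π t) κ ((algebraMap k κ).comp c) (EE e ψ (M0.x (π t)))
      (EE_self e ψ _) (fun j r l h1 h2 => EE_mul ψ (M0.xA _) (M0.x0 _) h1 h2)
    obtain ⟨v0, hv0⟩ := hB.W_surj ψ ξ
    have hWξ : hB.W v0 = ξ := funext hv0
    obtain ⟨v, hv⟩ := hS.lf t κ φ ψ (fun a ha => rfl) v0 (by rw [hWξ]; exact hξ1)
    refine ⟨v, ?_⟩
    rw [hu' ψ v0 v hv, hWξ]
    exact mul_ne_zero hu hξ2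
  · intro t κ _ _ φ ψ v0 v hv hK
    obtain ⟨u, hu, hu'⟩ := hom t κ φ
    change om v n' (hA' t) = 0
    rw [hu' ψ v0 v hv, hK (lam - μ (π t)) ?_ (j0 (π t)) (hNrm.ne _) (hNrm.le _), mul_zero]
    rw [sub_eq_add_neg, add_comm]
    exact Submodule.add_mem_sup (Λ.neg_mem (hNrm.mem _)) (Submodule.mem_span_singleton_self lam)

/-- The composition of two extensions. -/
lemma Ovr.comp {K1 : Type u} [Field K1] [Algebra k K1] [Algebra L K1] [Algebra K K1]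
    [IsScalarTower k L K1] [IsScalarTower k K K1] [IsScalarTower L K K1] {T1 I1 : Type}
    [Fintype I1] {M1 : LM (⊥ : Subalgebra k K1) ⊤ T1 I1} {π1 : T1 → T} {Θ1 : I1 → I → ℤ}
    (h0 : Ovr M0 M π Θ) (h1 : Ovr M M1 π1 Θ1) :
    Ovr M0 M1 (fun t => π (π1 t)) (fun i1 i0 => ∑ i, Θ1 i1 i * Θ i i0) := by
  refine ⟨?_, ?_, ?_⟩
  · intro t a ha
    rw [IsScalarTower.algebraMap_apply L K K1]
    exact h1.le t _ (h0.le (π1 t) a ha)
  · intro t i0
    rw [IsScalarTower.algebraMap_apply L K K1, h0.x, map_prod]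
    have h2 : ∀ i, algebraMap K K1 (M.x (π1 t) i ^ Θ i i0) =
        ∏ i1, M1.x t i1 ^ (Θ1 i1 i * Θ i i0) := by
      intro i
      rw [map_zpow₀, h1.x, ← Finset.prod_zpow]
      exact Finset.prod_congr rfl fun i1 _ => by rw [zpow_mul]
    rw [Finset.prod_congr rfl fun i _ => h2 i, Finset.prod_comm]
    refine Finset.prod_congr rfl fun i1 _ => ?_
    rw [Pool.Agent.W349.WD.Sum.zpow_sum' (M1.x0 t i1)]
  · intro i1 i0
    exact Finset.sum_nonneg fun i _ => mul_nonneg (h1.Θ0 i1 i) (h0.Θ0 i i0)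

lemma Cp.comp {K1 : Type u} [Field K1] [Algebra k K1] [Algebra L K1] [Algebra K K1]
    [IsScalarTower k L K1] [IsScalarTower k K K1] [IsScalarTower L K K1]
    {A0 : Subalgebra k L} {A : Subalgebra k K} {A1 : Subalgebra k K1} {κ : Type u} [Field κ]
    [Algebra k κ] {ψ : A0 →ₐ[k] κ} {φ : A →ₐ[k] κ} {φ1 : A1 →ₐ[k] κ} {I1 : Type} [Fintype I1]
    {x0 : I0 → L} {x : I → K} {x1 : I1 → K1} {v0 : LT ψ x0} {v : LT φ x} {v1 : LT φ1 x1}
    {Θ1 : I1 → I → ℤ} (hle : ∀ a ∈ A0, algebraMap L K a ∈ A) (h0 : Cp v0 v Θ)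
    (h1 : Cp v v1 Θ1) : Cp v0 v1 (fun i1 i0 => ∑ i, Θ1 i1 i * Θ i i0) := by
  have key : ∀ a, algebraMap L K1 a = algebraMap K K1 (algebraMap L K a) := fun a =>
    IsScalarTower.algebraMap_apply L K K1 a
  refine ⟨?_, ?_, ?_⟩
  · intro a ha ha'
    have e1 : (⟨algebraMap L K1 a, ha'⟩ : A1) =
        ⟨algebraMap K K1 (algebraMap L K a), (key a) ▸ ha'⟩ := Subtype.ext (key a)
    rw [e1, h1.vv _ (hle a ha), h0.vv a ha]
  · intro a ha ha'
    have e1 : (⟨algebraMap L K1 a, ha'⟩ : A1) =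
        ⟨algebraMap K K1 (algebraMap L K a), (key a) ▸ ha'⟩ := Subtype.ext (key a)
    rw [e1, h1.dd _ (hle a ha), h0.dd a ha]
  · intro i0
    rw [← h0.ee i0]
    have h2 : ∀ i1, ((∑ i, Θ1 i1 i * Θ i i0 : ℤ) : κ) * v1.e i1 =
        ∑ i, (Θ i i0 : κ) * ((Θ1 i1 i : κ) * v1.e i1) := by
      intro i1
      push_cast
      rw [Finset.sum_mul]
      exact Finset.sum_congr rfl fun i _ => by ring
    rw [Finset.sum_congr rfl fun i1 _ => h2 i1, Finset.sum_comm]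
    refine Finset.sum_congr rfl fun i _ => ?_
    rw [← Finset.mul_sum, h1.ee i]

/-- The next step of the tower. -/
theorem Stg.next (hbun : WQ_bun.{u}) (hppr : WQ_ppr.{u}) (hpcut : WQ_pcut.{u})
    {p : ℕ} [Fact p.Prime] [PerfectField k] [CharP k p] {hB : BD M0 n e h s}
    (hS : Stg c hB M π Θ Λ) {F : (ι → C) → L}
    (hF : HNF c p hB F) (hR : Frc M) (hw : ∀ μ ∈ Λ, ∃ w : K, w ^ p = algebraMap L K (F μ))
    {lam : ι → C} (hlam : lam ∉ Λ) {G : Type} (g : G → L) (Γ : G → I → ℤ)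
    (hG : Fn M (fun b => algebraMap L K (g b)) Γ)
    (K1 : Type u) [Field K1] [Algebra k K1] [Algebra L K1] [Algebra K K1]
    [IsScalarTower k L K1] [IsScalarTower k K K1] [IsScalarTower L K K1]
    (hnp : ∀ b : K, b ^ p ≠ algebraMap L K (F lam)) (z : K1)
    (hz : z ^ p = algebraMap L K1 (F lam)) (hgen : ∀ y : K1, ∃ P : K[X], aeval z P = y) :
    ∃ (T1 I1 : Type) (_ : Finite T1) (_ : Fintype I1) (M1 : LM (⊥ : Subalgebra k K1) ⊤ T1 I1)
      (π1 : T1 → T0) (Θ1 : I1 → I0 → ℤ) (Γ1 : G → I1 → ℤ),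
      Stg c hB M1 π1 Θ1 (Λ ⊔ Submodule.span C {lam}) ∧
      Fn M1 (fun b => algebraMap L K1 (g b)) Γ1 ∧ Frc M1 := by
  obtain ⟨n', a', h', hN, hom⟩ := hS.nfh c hF hR hw hlam
  have hz' : z ^ p = algebraMap K K1 (algebraMap L K (F lam)) := by
    rw [hz, IsScalarTower.algebraMap_apply L K K1]
  obtain ⟨T1, I1, hT1, hI1, M1, π1, Θ1, ho, Γ1, hCL, hF1, hR1⟩ :=
    exists_root hbun hppr hpcut p k K K1 M (algebraMap L K (F lam)) n' a' h'
      (fun b => algebraMap L K (g b)) Γ hN hR hG hnp z hz' hgen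
  refine ⟨T1, I1, hT1, hI1, M1, _, _, Γ1, ⟨hS.ov.comp ho, ?_⟩, ?_, hR1⟩
  · intro t κ _ _ φ ψ hψ v0 hK
    have hle := hS.ov.le (π1 t)
    obtain ⟨v, hv⟩ := hS.lf (π1 t) κ (φ.comp (ci (ho.le t))) ψ (by
      intro a ha
      rw [← hψ a ha]
      change φ ⟨_, _⟩ = _
      congr 1
      exact Subtype.ext (IsScalarTower.algebraMap_apply L K K1 a).symm) v0
      (hK.mono le_sup_left)
    obtain ⟨v1, hv1, hv1'⟩ := hCL t κ φ v (hom (π1 t) κ _ ψ v0 v hv hK)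
    have hc1 : Cp v v1 Θ1 := ⟨fun a ha ha' => rfl, fun a ha ha' => hv1 a ha, hv1'⟩
    exact ⟨v1, hv.comp hle hc1⟩
  · have e1 : (fun b => algebraMap L K1 (g b)) =
        fun b => algebraMap K K1 (algebraMap L K (g b)) :=
      funext fun b => IsScalarTower.algebraMap_apply L K K1 (g b)
    rw [e1]
    exact hF1

end stage

end Pool.Agent.TH188.WQ
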