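import Pool.Agent.TH188.WQ.Base
import Pool.Agent.TH188.WP.Asm

/-!
# Function fields of smooth proper surfaces and purely inseparable extensions
-/

set_option autoImplicit false
set_option linter.unusedVariables false
set_option linter.unusedSectionVars false

universe u w

open Polynomial Pool.Agent.W558 Pool.Agent.TH188.WP TensorProduct

namespace Pool.Agent.TH188.WQ

section surf

/-- `E` is the function field of a smooth proper surface. -/
def SurfM (k E : Type u) [Field k] [Field E] [Algebra k E] : Prop :=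
  Algebra.trdeg k E = 2 ∧ ∃ (T I : Type) (_ : Finite T) (_ : Fintype I)
    (M : LM (⊥ : Subalgebra k E) ⊤ T I), Frc M

variable {k E : Type u} [Field k] [Field E] [Algebra k E]

lemma LM.nonempty {T I : Type} (M : LM (⊥ : Subalgebra k E) ⊤ T I) : Nonempty T := by
  obtain ⟨t, -⟩ := M.cv ⊤ (fun a _ => trivial)
  exact ⟨t⟩

/-- Removing the boundary. -/
def noBdy {T I : Type} (M : LM (⊥ : Subalgebra k E) ⊤ T I) : LM (⊥ : Subalgebra k E) ⊤ T Empty where
  A := M.A
  H := M.H
  x := fun _ i => i.elim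
  sm := M.sm
  base := M.base
  H0 := M.H0
  HR := M.HR
  rt := M.rt
  gl := M.gl
  dn := M.dn
  cv := M.cv
  xA := fun _ i => i.elim
  x0 := fun _ i => i.elim
  gi := fun _ _ i => i.elim
  snc := fun _ κ _ _ φ i => i.elim

lemma SurfM.sm (h : SurfM k E) : Nonempty (SM k E) := by
  obtain ⟨h2, T, I, hT, hI, M, hR⟩ := h
  exact ⟨{
    T := T
    I := Empty
    finT := hT
    finI := inferInstance
    M := noBdy M
    W := fun i => i.elim
    sf := fun t => ⟨M.sm t, hR t⟩
    irr := fun t i => i.elim }⟩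

lemma SurfM.of_hasModel (h2 : Algebra.trdeg k E = 2) (h : HasModel k E) : SurfM k E := by
  obtain ⟨s⟩ := all_init k E h
  exact ⟨h2, s.T, s.I, s.finT, s.finI, s.M, fun t => (s.sf t).fr⟩

lemma SurfM.ess (h : SurfM k E) : Algebra.EssFiniteType k E := by
  obtain ⟨h2, T, I, hT, hI, M, hR⟩ := h
  obtain ⟨t⟩ := LM.nonempty M
  have hfr : IsFractionRing (M.A t) E := by
    refine IsFractionRing.of_field _ _ fun x => ?_
    obtain ⟨a, ha, b, hb, hb0, h1⟩ := hR t x
    refine ⟨⟨a, ha⟩, ⟨b, hb⟩, ?_⟩
    rw [h1]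
    exact (div_eq_mul_inv _ _).symm
  have hsm := M.sm t
  have hft : Algebra.FiniteType k (M.A t) := inferInstance
  have hess : Algebra.EssFiniteType (M.A t) E :=
    Algebra.EssFiniteType.of_isLocalization E (nonZeroDivisors (M.A t))
  exact Algebra.EssFiniteType.comp k (M.A t) E

/-- Giraud's theorem for surfaces. -/
theorem gm_surf' (p : ℕ) [Fact p.Prime] [PerfectField k] [CharP k p] (hE : SurfM k E)
    (ι G : Type) [Subsingleton ι] [Finite G] (f : ι → E)
    (hf : ∀ i, ¬ ∃ b, b ^ p = f i) (c : G → E) (hc : ∀ b, c b ≠ 0) : GM p k f c := by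
  have h2 := hE.1
  have hess := hE.ess
  obtain ⟨s⟩ := hE.sm
  rcases isEmpty_or_nonempty ι with hι | ⟨⟨i0⟩⟩
  · obtain ⟨s', Γ, hF⟩ := all_log k E h2 s G c hc
    refine ⟨s'.T, s'.I, s'.finT, s'.finI, s'.M, fun j => isEmptyElim j, fun _ j => isEmptyElim j,
      fun _ j => isEmptyElim j, Γ, ⟨fun _ j => isEmptyElim j, fun _ j => isEmptyElim j,
      fun _ κ _ _ φ j => isEmptyElim j⟩, hF, fun t => (s'.sf t).fr⟩
  · have hfi : ∀ i, f i = f i0 := fun i => by rw [Subsingleton.elim i i0]
    have hD : ∃ D : Derivation k E E, D (f i0) ≠ 0 := by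
      by_contra hcon
      push Not at hcon
      exact hf i0 (wd_ker p k E (f i0) hcon)
    obtain ⟨s', Γ, hF, hCO⟩ := wd_gin k E h2 s G c hc (f i0) hD
    obtain ⟨s'', Γ', hF', hCO', hgd⟩ := wd_gir0 k E h2 s' G c Γ hF (f i0) hD hCO
    obtain ⟨T, I, hT, hI, M, Γ'', n, a, h, hFn, hN, hR⟩ :=
      wd_loc p k E h2 s'' G c Γ' hF' (f i0) hCO' hgd
    refine ⟨T, I, hT, hI, M, fun _ => n, fun t _ => a t, fun t _ => h t, Γ'',
      ⟨fun t _ => hN.hA t, fun t i => by rw [hfi i]; exact hN.eq t, ?_⟩, hFn, hR⟩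
    intro t κ _ _ φ j
    obtain ⟨v, hv⟩ := hN.ln t κ φ
    exact ⟨v, hv, fun l hl => absurd (Subsingleton.elim l j) hl⟩

/-- Extensions generated by a `p`-th root. -/
theorem SurfM.root (p : ℕ) [Fact p.Prime] [PerfectField k] [CharP k p] (hE : SurfM k E)
    (K : Type u) [Field K] [Algebra k K] [Algebra E K] [IsScalarTower k E K] (z : K) (f : E)
    (hz : z ^ p = algebraMap E K f) (hgen : IntermediateField.adjoin E {z} = ⊤) : SurfM k K := by
  have hp : p.Prime := Fact.out
  have hcE : CharP E p := charP_of_injective_algebraMap (algebraMap k E).injective p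
  have hcK : CharP K p := charP_of_injective_algebraMap (algebraMap k K).injective p
  have hint : IsIntegral E z := by
    refine ⟨X ^ p - C f, monic_X_pow_sub_C _ hp.ne_zero, ?_⟩
    rw [← aeval_def, map_sub, map_pow, aeval_X, aeval_C, hz, sub_self]
  have hfin : FiniteDimensional E K := by
    have h1 : FiniteDimensional E (IntermediateField.adjoin E {z}) :=
      IntermediateField.adjoin.finiteDimensional hint
    rw [hgen] at h1
    exact IntermediateField.topEquiv.toLinearEquiv.finiteDimensional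
  have htr : Algebra.trdeg k K = 2 := by
    rw [← _root_.trdeg_add_eq k E, _root_.trdeg_eq_zero (R := E) (A := K), add_zero, hE.1]
  refine ⟨htr, ?_⟩
  by_cases hzE : ∃ b : E, b ^ p = f
  · -- the extension is trivial
    obtain ⟨b, hb⟩ := hzE
    have h1 : z = algebraMap E K b := by
      apply frobenius_inj K p
      rw [frobenius_def, frobenius_def, ← map_pow, hb, hz]
    obtain ⟨-, T, I, hT, hI, M, hR⟩ := hE
    refine ⟨T, I, hT, hI, Pool.Agent.W498.Tor.mapLM (K := K) M, ?_⟩
    have hsurj : Function.Surjective (algebraMap E K) := by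
      have h4 : IntermediateField.adjoin E {z} = ⊥ := by
        rw [IntermediateField.adjoin_simple_eq_bot_iff, h1]
        exact IntermediateField.algebraMap_mem _ _
      rw [h4] at hgen
      intro y
      have h5 : y ∈ (⊤ : IntermediateField E K) := trivial
      rw [← hgen] at h5
      exact IntermediateField.mem_bot.1 h5
    intro t x
    obtain ⟨l, rfl⟩ := hsurj x
    obtain ⟨c, hc, d, hd, hd0, h1⟩ := hR t l
    refine ⟨Pool.Agent.W498.Tor.em k E K c, ⟨c, hc, rfl⟩, Pool.Agent.W498.Tor.em k E K d,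
      ⟨d, hd, rfl⟩, (map_ne_zero_iff _ Pool.Agent.W498.Tor.em_inj).2 hd0, ?_⟩
    change Pool.Agent.W498.Tor.em k E K l = _
    rw [h1, map_mul, map_inv₀]
  · push Not at hzE
    obtain ⟨T, I, hT, hI, M, n, a, h, Γ, hN, hG, hR⟩ := gm_surf' p hE Unit Empty (fun _ => f)
      (fun _ => by push Not; exact hzE) (fun b => b.elim) (fun b => b.elim)
    have hN' : NFH p M f (n ()) (fun t => a t ()) (fun t => h t ()) := by
      refine ⟨fun t => hN.hA t (), fun t => hN.eq t (), ?_⟩
      intro t κ _ _ φ
      obtain ⟨v, hv, -⟩ := hN.ln t κ φ ()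
      exact ⟨v, hv⟩
    obtain ⟨T', I', hT', hI', M', Γ', -, hR'⟩ := exists_LM_root wd_bun wd_ppr wd_pcut p k E K M f
      (n ()) _ _ (fun b : Empty => b.elim) Γ hN' hR (fun b => b.elim) hzE z hz (by
        intro y
        have h8 : y ∈ Algebra.adjoin E {z} := by
          have h9 : y ∈ (IntermediateField.adjoin E {z}).toSubalgebra := by
            rw [hgen]; trivial
          rwa [IntermediateField.adjoin_simple_toSubalgebra_of_isAlgebraic hint.isAlgebraic] at h9
        rw [Algebra.adjoin_singleton_eq_range_aeval] at h8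
        exact h8)
    exact ⟨T', I', hT', hI', M', hR'⟩

/-- Extensions of exponent one. -/
theorem SurfM.tower (p : ℕ) [Fact p.Prime] [PerfectField k] [CharP k p] : ∀ (r : ℕ) (E K : Type u)
    [Field E] [Field K] [Algebra k E] [Algebra k K] [Algebra E K] [IsScalarTower k E K],
    SurfM k E → ∀ w : Fin r → K, (∀ j, ∃ f : E, w j ^ p = algebraMap E K f) →
    IntermediateField.adjoin E (Set.range w) = ⊤ → SurfM k K := by
  have hp : p.Prime := Fact.out
  intro r
  induction r with
  | zero =>
    intro E K _ _ _ _ _ _ hE w hw hgen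
    refine hE.root p K 0 0 (by rw [map_zero, zero_pow hp.ne_zero]) ?_
    rw [Set.range_eq_empty, IntermediateField.adjoin_empty] at hgen
    rw [IntermediateField.adjoin_zero, hgen]
  | succ r ih =>
    intro E K _ _ _ _ _ _ hE w hw hgen
    let L1 := IntermediateField.adjoin E {w 0}
    have tL1 : IsScalarTower k L1 K := IsScalarTower.of_algebraMap_eq fun c => rfl
    let z : L1 := ⟨w 0, IntermediateField.mem_adjoin_simple_self E (w 0)⟩
    obtain ⟨f0, hf0⟩ := hw 0
    have h1 : SurfM k L1 := by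
      refine hE.root p L1 z f0 (Subtype.ext hf0) ?_
      apply IntermediateField.lift_injective L1
      rw [IntermediateField.lift_adjoin_simple, IntermediateField.lift_top]
    refine ih L1 K h1 (fun j => w j.succ) (fun j => ?_) ?_
    · obtain ⟨f, hf⟩ := hw j.succ
      exact ⟨algebraMap E L1 f, hf⟩
    rw [← IntermediateField.restrictScalars_eq_top_iff (K := E),
      IntermediateField.adjoin_adjoin_left, ← hgen]
    congr 1
    ext y
    constructor
    · rintro (hy | ⟨j, rfl⟩)
      · exact ⟨0, hy.symm⟩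
      · exact ⟨j.succ, rfl⟩
    · rintro ⟨j, rfl⟩
      refine Fin.cases ?_ (fun j => ?_) j
      · exact Or.inl rfl
      · exact Or.inr ⟨j, rfl⟩

end surf

end Pool.Agent.TH188.WQ
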