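import Pool.Agent.TH188.WQ.Stage

/-!
# Towers of purely inseparable extensions: the induction
`exists_lt` is copied from `Pool.Agent.W906.WT.Iso`; the induction follows
`Pool.Agent.W558.WT.Asm1`.
-/

set_option autoImplicit false
set_option linter.unusedVariables false
set_option linter.unusedSectionVars false

universe u w

open Polynomial Pool.Agent.W558 Pool.Agent.TH188.WP Pool.Agent.W498.Tor

namespace Pool.Agent.TH188.WQ

section tr

variable {k L K : Type u} [Field k] [Field L] [Field K] [Algebra k L] [Algebra k K]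
  [Algebra L K] [IsScalarTower k L K] {T I : Type} (M : LM (⊥ : Subalgebra k L) ⊤ T I)

/-- Transport of logarithmic tangent vectors. -/
lemma exists_lt (t : T) {κ : Type u} [Field κ] [Algebra k κ]
    (φ : (mapLM (K := K) M).A t →ₐ[k] κ)
    (v : LT (φ.comp (eqv (K := K) (M.A t)).toAlgHom) (M.x t)) :
    ∃ v' : LT φ ((mapLM (K := K) M).x t), v'.e = v.e ∧
      ∀ (b : L) (hb : b ∈ M.A t) (hb' : em k L K b ∈ (mapLM (K := K) M).A t),
        v'.D.D ⟨em k L K b, hb'⟩ = v.D.D ⟨b, hb⟩ := by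
  let e := eqv (K := K) (M.A t)
  have h0 : ∀ (b : L) (hb : b ∈ M.A t) (hb' : em k L K b ∈ (M.A t).map (em k L K)),
      e ⟨b, hb⟩ = ⟨em k L K b, hb'⟩ := fun b hb hb' => Subtype.ext (coe_eqv (M.A t) _)
  have h3 : ∀ (b : L) (hb : b ∈ M.A t) (hb' : em k L K b ∈ (M.A t).map (em k L K)),
      e.symm ⟨em k L K b, hb'⟩ = ⟨b, hb⟩ := by
    intro b hb hb'
    rw [← h0 b hb hb', e.symm_apply_apply]
  have h2 : ∀ b, ((φ.comp e.toAlgHom).comp e.symm.toAlgHom) b = φ b := by
    intro b
    change φ (e (e.symm b)) = φ b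
    rw [e.apply_symm_apply]
  have h4 : ∀ (b : L) (hb : b ∈ M.A t) (hb' : em k L K b ∈ (M.A t).map (em k L K)),
      ((v.D.restr e.symm.toAlgHom).cast h2).D ⟨em k L K b, hb'⟩ = v.D.D ⟨b, hb⟩ := by
    intro b hb hb'
    rw [TV.cast_D, TV.restr_D]
    change v.D.D (e.symm ⟨em k L K b, hb'⟩) = _
    rw [h3 b hb hb']
  refine ⟨⟨(v.D.restr e.symm.toAlgHom).cast h2, v.e, ?_⟩, rfl, h4⟩
  intro i hi
  have h5 := h4 (M.x t i) (M.xA t i) hi
  change ((v.D.restr e.symm.toAlgHom).cast h2).D ⟨em k L K (M.x t i), hi⟩ =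
    φ ⟨em k L K (M.x t i), hi⟩ * v.e i
  rw [h5, v.hx i (M.xA t i)]
  congr 1

end tr

section tower

variable {k L : Type u} [Field k] [Field L] [Algebra k L] {T0 I0 : Type} [Fintype I0] {ι : Type}
  [Fintype ι] {C : Type w} [Field C] (c : C →+* k)
  {M0 : LM (⊥ : Subalgebra k L) ⊤ T0 I0} {n e : ι → I0 → ℤ} {h s : T0 → ι → L}

/-- The extension `K` of `L` has a model over the model `M0`. -/
def GT (p : ℕ) (hB : BD M0 n e h s) (F : (ι → C) → L) {G : Type} (g : G → L)
    (K : Type u) [Field K] [Algebra k K] [Algebra L K] [IsScalarTower k L K] : Prop :=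
  ∃ (T I : Type) (_ : Finite T) (_ : Fintype I) (M : LM (⊥ : Subalgebra k K) ⊤ T I)
    (π : T → T0) (Θ : I → I0 → ℤ) (Λ : Submodule C (ι → C)) (Γ : G → I → ℤ),
    Stg c hB M π Θ Λ ∧ (∀ μ ∈ Λ, ∃ w : K, w ^ p = algebraMap L K (F μ)) ∧
    Fn M (fun b => algebraMap L K (g b)) Γ ∧ Frc M

/-- The functions `F μ` depend on `μ` linearly up to `p`-th powers. -/
def HPow (p : ℕ) (k : Type u) {L : Type u} [Field k] [Field L] [Algebra k L] {ι : Type}
    {C : Type w} [Field C] (F : (ι → C) → L) : Prop :=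
  ∀ (K : Type u) [Field K] [Algebra k K] [Algebra L K] [IsScalarTower k L K] (μ ν : ι → C)
    (a : C), (∃ w : K, w ^ p = algebraMap L K (F μ)) → (∃ w : K, w ^ p = algebraMap L K (F ν)) →
    ∃ w : K, w ^ p = algebraMap L K (F (μ + a • ν))

theorem gt_init [Finite T0] (p : ℕ) (hB : BD M0 n e h s) (F : (ι → C) → L)
    (hF0 : ∃ w : L, w ^ p = F 0) {G : Type} (g : G → L) (Γ : G → I0 → ℤ) (hG : Fn M0 g Γ)
    (hR : Frc M0) : GT c p hB F g L := by
  classical
  refine ⟨T0, I0, inferInstance, inferInstance, M0, id, fun i j => if i = j then 1 else 0, ⊥, Γ,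
    ⟨⟨fun t a ha => ha, ?_, ?_⟩, ?_⟩, ?_, hG, hR⟩
  · intro t i0
    change M0.x t i0 = _
    rw [Finset.prod_eq_single i0]
    · rw [if_pos rfl, zpow_one]
    · intro b _ hb
      rw [if_neg hb, zpow_zero]
    · intro h
      exact absurd (Finset.mem_univ _) h
  · intro i j
    split_ifs <;> norm_num
  · intro t κ _ _ φ ψ hψ v0 _
    have hφψ : φ = ψ := AlgHom.ext fun a => hψ a a.2
    subst hφψ
    refine ⟨v0, fun a ha ha' => rfl, fun a ha ha' => rfl, ?_⟩
    intro i0
    rw [Finset.sum_eq_single i0]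
    · rw [if_pos rfl]; push_cast; rw [one_mul]
    · intro b _ hb
      rw [if_neg hb]; push_cast; rw [zero_mul]
    · intro h
      exact absurd (Finset.mem_univ _) h
  · intro μ hμ
    rw [Submodule.mem_bot] at hμ
    rw [hμ]
    exact hF0

variable {c}

/-- Transport. -/
theorem GT.surj {p : ℕ} {hB : BD M0 n e h s} {F : (ι → C) → L} {G : Type} {g : G → L}
    {K : Type u} [Field K] [Algebra k K] [Algebra L K] [IsScalarTower k L K]
    (hM : GT c p hB F g K) (K1 : Type u) [Field K1] [Algebra k K1] [Algebra L K1] [Algebra K K1]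
    [IsScalarTower k L K1] [IsScalarTower k K K1] [IsScalarTower L K K1]
    (hsurj : Function.Surjective (algebraMap K K1)) : GT c p hB F g K1 := by
  classical
  obtain ⟨T, I, hT, hI, M, π, Θ, Λ, Γ, hS, hw, hFn, hFrc⟩ := hM
  have hinj : Function.Injective (em k K K1) := em_inj
  have key : ∀ a, algebraMap L K1 a = em k K K1 (algebraMap L K a) := fun a =>
    IsScalarTower.algebraMap_apply L K K1 a
  have hmon : ∀ t (m : I → ℤ), ∏ i, (mapLM (K := K1) M).x t i ^ m i =
      em k K K1 (∏ i, M.x t i ^ m i) := by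
    intro t m
    rw [map_prod]
    refine Finset.prod_congr rfl fun i _ => ?_
    rw [map_zpow₀]
    rfl
  have hle : ∀ t, ∀ a ∈ M0.A (π t), algebraMap L K1 a ∈ (mapLM (K := K1) M).A t := by
    intro t a ha
    rw [key]
    exact ⟨_, hS.ov.le t a ha, rfl⟩
  refine ⟨T, I, hT, hI, mapLM (K := K1) M, π, Θ, Λ, Γ, ⟨⟨hle, ?_, hS.ov.Θ0⟩, ?_⟩, ?_, ?_, ?_⟩
  · intro t i0
    rw [hmon, key, hS.ov.x]
  · intro t κ _ _ φ ψ hψ v0 hK
    obtain ⟨v, hv⟩ := hS.lf t κ (φ.comp (eqv (K := K1) (M.A t)).toAlgHom) ψ (by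
      intro a ha
      rw [← hψ a ha]
      change φ (eqv (K := K1) (M.A t) ⟨_, _⟩) = φ ⟨_, _⟩
      congr 1
      exact Subtype.ext (key a).symm) v0 hK
    obtain ⟨v', he, hD⟩ := exists_lt M t φ v
    refine ⟨v', ?_, ?_, ?_⟩
    · intro a ha ha'
      exact hψ a ha
    · intro a ha ha'
      have h1 := hD (algebraMap L K a) (hS.ov.le t a ha) ((key a) ▸ ha')
      have e1 : (⟨algebraMap L K1 a, ha'⟩ : (mapLM (K := K1) M).A t) =
        ⟨em k K K1 (algebraMap L K a), (key a) ▸ ha'⟩ := Subtype.ext (key a)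
      rw [e1, h1, hv.dd a ha]
    · intro i0
      rw [he]
      exact hv.ee i0
  · intro μ hμ
    obtain ⟨w, hw⟩ := hw μ hμ
    exact ⟨em k K K1 w, by rw [key, ← hw, map_pow]⟩
  · intro b t
    obtain ⟨w, hw0, hw, hw', h1⟩ := hFn b t
    refine ⟨em k K K1 w, (map_ne_zero_iff _ hinj).2 hw0, ⟨w, hw, rfl⟩,
      ⟨w⁻¹, hw', map_inv₀ (em k K K1) w⟩, ?_⟩
    rw [hmon]
    change algebraMap L K1 (g b) = _
    rw [key, ← map_mul]
    exact congrArg _ h1
  · intro t x
    obtain ⟨l, rfl⟩ := hsurj x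
    obtain ⟨c, hc, d, hd, hd0, h1⟩ := hFrc t l
    refine ⟨em k K K1 c, ⟨c, hc, rfl⟩, em k K K1 d, ⟨d, hd, rfl⟩,
      (map_ne_zero_iff _ hinj).2 hd0, ?_⟩
    change em k K K1 l = _
    rw [h1, map_mul, map_inv₀]

variable (hbun : WQ_bun.{u}) (hppr : WQ_ppr.{u}) (hpcut : WQ_pcut.{u})
  {p : ℕ} [Fact p.Prime] [PerfectField k] [CharP k p] {hB : BD M0 n e h s}
  {F : (ι → C) → L} (hF : HNF c p hB F) (hF' : HPow p k F) {G : Type} {g : G → L}

include hbun hppr hpcut hF hF'

/-- One step of a tower. -/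
theorem gt_step (K K1 : Type u) [Field K] [Algebra k K] [Algebra L K] [IsScalarTower k L K]
    [Field K1] [Algebra k K1] [Algebra L K1] [Algebra K K1]
    [IsScalarTower k L K1] [IsScalarTower k K K1] [IsScalarTower L K K1]
    (hM : GT c p hB F g K) (lam : ι → C) (z : K1) (hz : z ^ p = algebraMap L K1 (F lam))
    (hgen : IntermediateField.adjoin K {z} = ⊤) : GT c p hB F g K1 := by
  have hp : p.Prime := Fact.out
  have hcK : CharP K p := charP_of_injective_algebraMap (algebraMap k K).injective p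
  have hcK1 : CharP K1 p := charP_of_injective_algebraMap (algebraMap k K1).injective p
  by_cases hzK : ∃ b : K, b ^ p = algebraMap L K (F lam)
  · obtain ⟨b, hb⟩ := hzK
    have h1 : z = algebraMap K K1 b := by
      apply frobenius_inj K1 p
      rw [frobenius_def, frobenius_def, ← map_pow, hb, hz, IsScalarTower.algebraMap_apply L K K1]
    refine hM.surj K1 ?_
    have h4 : IntermediateField.adjoin K {z} = ⊥ := by
      rw [IntermediateField.adjoin_simple_eq_bot_iff, h1]
      exact IntermediateField.algebraMap_mem _ _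
    rw [h4] at hgen
    intro y
    have h5 : y ∈ (⊤ : IntermediateField K K1) := trivial
    rw [← hgen] at h5
    exact IntermediateField.mem_bot.1 h5
  · push Not at hzK
    obtain ⟨T, I, hT, hI, M, π, Θ, Λ, Γ, hS, hw, hFn, hFrc⟩ := hM
    have hlam : lam ∉ Λ := by
      intro hl
      obtain ⟨w, hw⟩ := hw lam hl
      exact hzK w hw
    obtain ⟨T1, I1, hT1, hI1, M1, π1, Θ1, Γ1, hS1, hF1, hR1⟩ :=
      hS.next c hbun hppr hpcut hF hFrc hw hlam g Γ hFn K1 hzK z hz (by
        intro y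
        have hint : IsIntegral K z := by
          refine ⟨X ^ p - Polynomial.C (algebraMap L K (F lam)), monic_X_pow_sub_C _ hp.ne_zero, ?_⟩
          rw [← aeval_def, map_sub, map_pow, aeval_X, aeval_C, hz,
            IsScalarTower.algebraMap_apply L K K1, sub_self]
        have h8 : y ∈ Algebra.adjoin K {z} := by
          have h9 : y ∈ (IntermediateField.adjoin K {z}).toSubalgebra := by
            rw [hgen]; trivial
          rwa [IntermediateField.adjoin_simple_toSubalgebra_of_isAlgebraic hint.isAlgebraic] at h9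
        rw [Algebra.adjoin_singleton_eq_range_aeval] at h8
        exact h8)
    refine ⟨T1, I1, hT1, hI1, M1, π1, Θ1, _, Γ1, hS1, ?_, hF1, hR1⟩
    intro μ hμ
    obtain ⟨μ0, hμ0, μ1, hμ1, rfl⟩ := Submodule.mem_sup.mp hμ
    obtain ⟨a, rfl⟩ := Submodule.mem_span_singleton.mp hμ1
    obtain ⟨w, hw⟩ := hw μ0 hμ0
    exact hF' K1 μ0 lam a ⟨algebraMap K K1 w, by
      rw [← map_pow, hw, IsScalarTower.algebraMap_apply L K K1]⟩ ⟨z, hz⟩

/-- Towers. -/
theorem gt_tower : ∀ (r : ℕ) (K K1 : Type u) [Field K] [Algebra k K] [Algebra L K]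
    [IsScalarTower k L K] [Field K1] [Algebra k K1] [Algebra L K1] [Algebra K K1]
    [IsScalarTower k L K1] [IsScalarTower k K K1] [IsScalarTower L K K1],
    GT c p hB F g K → ∀ (w : Fin r → K1) (lam : Fin r → ι → C),
    (∀ j, w j ^ p = algebraMap L K1 (F (lam j))) →
    IntermediateField.adjoin K (Set.range w) = ⊤ → GT c p hB F g K1 := by
  have hp : p.Prime := Fact.out
  intro r
  induction r with
  | zero =>
    intro K K1 _ _ _ _ _ _ _ _ _ _ _ hM w lam hw hgen
    refine hM.surj K1 ?_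
    rw [Set.range_eq_empty, IntermediateField.adjoin_empty] at hgen
    intro y
    have h5 : y ∈ (⊤ : IntermediateField K K1) := trivial
    rw [← hgen] at h5
    exact IntermediateField.mem_bot.1 h5
  | succ r ih =>
    intro K K1 _ _ _ _ _ _ _ _ _ _ _ hM w lam hw hgen
    let L1 := IntermediateField.adjoin K {w 0}
    have tL1 : IsScalarTower k L1 K1 := IsScalarTower.of_algebraMap_eq fun c => rfl
    let _ : Algebra L L1 := ((algebraMap K L1).comp (algebraMap L K)).toAlgebra
    have t1 : IsScalarTower L K L1 := IsScalarTower.of_algebraMap_eq fun c => rfl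
    have t2 : IsScalarTower k L L1 := IsScalarTower.of_algebraMap_eq fun c => by
      rw [IsScalarTower.algebraMap_apply k K L1, IsScalarTower.algebraMap_apply k L K]
      rfl
    have t3 : IsScalarTower L L1 K1 := IsScalarTower.of_algebraMap_eq fun c => by
      rw [IsScalarTower.algebraMap_apply L K K1]
      rfl
    let z : L1 := ⟨w 0, IntermediateField.mem_adjoin_simple_self K (w 0)⟩
    have hM1 : GT c p hB F g L1 := by
      refine gt_step hbun hppr hpcut hF hF' K L1 hM (lam 0) z ?_ ?_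
      · apply Subtype.ext
        change (w 0) ^ p = algebraMap L1 K1 (algebraMap L L1 (F (lam 0)))
        rw [← IsScalarTower.algebraMap_apply L L1 K1]
        exact hw 0
      · apply IntermediateField.lift_injective L1
        rw [IntermediateField.lift_adjoin_simple, IntermediateField.lift_top]
    refine ih L1 K1 hM1 (fun j => w j.succ) (fun j => lam j.succ) (fun j => hw j.succ) ?_
    rw [← IntermediateField.restrictScalars_eq_top_iff (K := K),
      IntermediateField.adjoin_adjoin_left, ← hgen]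
    congr 1
    ext y
    constructor
    · rintro (hy | ⟨j, rfl⟩)
      · exact ⟨0, hy.symm⟩
      · exact ⟨j.succ, rfl⟩
    · rintro ⟨j, rfl⟩
      refine Fin.cases ?_ (fun j => ?_) j
      · exact Or.inl rfl
      · exact Or.inr ⟨j, rfl⟩

end tower

end Pool.Agent.TH188.WQ
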